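import Pool.Agent.U902.PT.Net

set_option autoImplicit false

/-!
# Families of point sets with small second moments of the discrepancy at every corner
-/

namespace Pool.Agent.U902.PT

open Finset MeasureTheory Pool.Agent.H730R2.LU

/-- the discrepancy of `m` points with respect to `m` times the uniform distribution -/
noncomputable def dd {m d : ℕ} (ξ : Fin m → Fin d → ℝ) (x : Fin d → ℝ) : ℝ := by
  classical
  exact ((univ.filter (fun μ => ∀ i, ξ μ i ≤ x i)).card : ℝ) - m * ∏ i, x i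

/-- rounding of a corner -/
noncomputable def Xf {d : ℕ} (j0 : Fin d) (m N : ℕ) (x : Fin d → ℝ) (i : Fin d) : ℕ :=
  if i = j0 then ⌊x i * m⌋₊ else ⌊x i * N⌋₊

theorem Xf_le {d : ℕ} (j0 : Fin d) (m N : ℕ) (hmN : m ≤ N) (x : Fin d → ℝ)
    (hx : ∀ i, 0 ≤ x i ∧ x i ≤ 1) (i : Fin d) : Xf j0 m N x i ≤ N := by
  have h : ∀ K : ℕ, ⌊x i * K⌋₊ ≤ K := fun K => by
    have h1 : x i * K ≤ K := by
      have := hx i
      nlinarith [(Nat.cast_nonneg K : (0 : ℝ) ≤ K)]
    exact Nat.floor_le_of_le h1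
  unfold Xf
  split_ifs
  · exact (h m).trans hmN
  · exact h N

theorem floor_aux (y N : ℕ) (hN : 1 ≤ N) (t : ℝ) (ht : 0 ≤ t) :
    (((y : ℝ) + 1) / N ≤ t) ↔ y < ⌊t * N⌋₊ := by
  have hN' : (0 : ℝ) < N := by exact_mod_cast hN
  rw [div_le_iff₀ hN', Nat.lt_iff_add_one_le, Nat.le_floor_iff (by positivity)]
  push_cast
  rfl

/-- the `m` points, all coordinates positive -/
theorem exists_pts' (p d n m : ℕ) [Fact p.Prime] (hmN : m ≤ p ^ n)
    (H : Finset (Fin d → DS p n))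
    (hH : ∀ (i : Fin d) (b : DS p n), (H.filter (fun h => h i = b)).card = 1)
    (σ : Fin d → DS p n) (j0 : Fin d) :
    ∃ ξ : Fin m → Fin d → ℝ, (∀ μ i, 0 < ξ μ i ∧ ξ μ i ≤ 1) ∧
      ∀ x : Fin d → ℝ, (∀ i, 0 ≤ x i ∧ x i ≤ 1) →
        dd ξ x = ∑ h ∈ H, ∏ i, ind p n (Xf j0 m (p ^ n) x i) (h i + σ i) - m * ∏ i, x i := by
  classical
  have hex : ∀ μ : Fin m, ∃ h ∈ H, idx (h j0 + σ j0) = μ.val := by
    intro μ
    obtain ⟨b, -, hb⟩ := (idx_bij (p := p) (n := n)).surjOn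
      (show μ.val ∈ Set.Iio (p ^ n) from lt_of_lt_of_le μ.isLt hmN)
    obtain ⟨h, hh⟩ := Finset.card_eq_one.mp (hH j0 (b - σ j0))
    have hmem : h ∈ H.filter (fun h => h j0 = b - σ j0) := by rw [hh]; simp
    rw [Finset.mem_filter] at hmem
    refine ⟨h, hmem.1, ?_⟩
    rw [hmem.2, sub_add_cancel, hb]
  choose hh hhH hidx using hex
  have hinj : Function.Injective hh := by
    intro μ ν hμν
    apply Fin.ext
    rw [← hidx μ, ← hidx ν, hμν]
  have huniq : ∀ h ∈ H, idx (h j0 + σ j0) < m → h ∈ (univ.image hh) := by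
    intro h hhm hlt
    rw [Finset.mem_image]
    refine ⟨⟨idx (h j0 + σ j0), hlt⟩, mem_univ _, ?_⟩
    set μ : Fin m := ⟨idx (h j0 + σ j0), hlt⟩ with hμ
    have h1 : hh μ j0 + σ j0 = h j0 + σ j0 :=
      (idx_bij (p := p) (n := n)).injOn (Set.mem_univ _) (Set.mem_univ _) (by rw [hidx μ])
    have h2 : hh μ j0 = h j0 := add_right_cancel h1
    obtain ⟨g, hg⟩ := Finset.card_eq_one.mp (hH j0 (h j0))
    have e1 : h ∈ H.filter (fun h' => h' j0 = h j0) := by simp [hhm]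
    have e2 : hh μ ∈ H.filter (fun h' => h' j0 = h j0) := by simp [hhH μ, h2]
    rw [hg, Finset.mem_singleton] at e1 e2
    rw [e1, e2]
  have hp : 0 < p ^ n := pow_pos (Fact.out : p.Prime).pos n
  have hp' : (0 : ℝ) < ((p ^ n : ℕ) : ℝ) := by exact_mod_cast hp
  refine ⟨fun μ i => if i = j0 then ((μ.val : ℝ) + 1) / m
    else ((idx (hh μ i + σ i) : ℝ) + 1) / ((p ^ n : ℕ) : ℝ), ?_, ?_⟩
  · intro μ i
    have hm : 0 < m := lt_of_le_of_lt (Nat.zero_le _) μ.isLt
    have hm' : (0 : ℝ) < (m : ℝ) := by exact_mod_cast hm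
    constructor
    · show (0 : ℝ) < if i = j0 then ((μ.val : ℝ) + 1) / m
        else ((idx (hh μ i + σ i) : ℝ) + 1) / ((p ^ n : ℕ) : ℝ)
      split_ifs <;> positivity
    · show (if i = j0 then ((μ.val : ℝ) + 1) / m
        else ((idx (hh μ i + σ i) : ℝ) + 1) / ((p ^ n : ℕ) : ℝ)) ≤ 1
      split_ifs
      · rw [div_le_one hm']; exact_mod_cast μ.isLt
      · rw [div_le_one hp']; exact_mod_cast (idx_lt _)
  · intro x hx
    have hx0 : ∀ i, 0 ≤ x i := fun i => (hx i).1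
    unfold dd
    congr 1
    have hsub : ∑ h ∈ H, ∏ i, ind p n (Xf j0 m (p ^ n) x i) (h i + σ i) =
        ∑ h ∈ univ.image hh, ∏ i, ind p n (Xf j0 m (p ^ n) x i) (h i + σ i) := by
      symm
      apply Finset.sum_subset
      · intro h hh1
        rw [Finset.mem_image] at hh1
        obtain ⟨μ, -, rfl⟩ := hh1
        exact hhH μ
      · intro h h1 h2
        apply Finset.prod_eq_zero (mem_univ j0)
        have h3 : ¬ idx (h j0 + σ j0) < m := fun h4 => h2 (huniq h h1 h4)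
        unfold ind
        rw [if_neg]
        intro h4
        apply h3
        refine lt_of_lt_of_le h4 ?_
        unfold Xf
        rw [if_pos rfl]
        have h1 : x j0 * m ≤ m := by
          have := hx j0
          nlinarith [(Nat.cast_nonneg m : (0 : ℝ) ≤ m)]
        exact Nat.floor_le_of_le h1
    rw [hsub, Finset.sum_image (fun a _ b _ h => hinj h), Finset.card_filter]
    push_cast
    apply Finset.sum_congr rfl
    intro μ _
    have hm : 0 < m := lt_of_le_of_lt (Nat.zero_le _) μ.isLt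
    unfold ind
    rw [Finset.prod_ite_zero]
    have hiff : (∀ i, (if i = j0 then ((μ.val : ℝ) + 1) / m
        else ((idx (hh μ i + σ i) : ℝ) + 1) / ((p ^ n : ℕ) : ℝ)) ≤ x i) ↔
        ∀ i ∈ (univ : Finset (Fin d)), idx (hh μ i + σ i) < Xf j0 m (p ^ n) x i := by
      constructor
      · intro h2 i _
        have h3 := h2 i
        unfold Xf
        by_cases hi : i = j0
        · subst hi
          rw [if_pos rfl] at h3
          rw [if_pos rfl, hidx μ]
          exact (floor_aux μ.val m hm (x i) (hx0 i)).mp h3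
        · rw [if_neg hi] at h3
          rw [if_neg hi]
          exact (floor_aux _ (p ^ n) hp (x i) (hx0 i)).mp h3
      · intro h1 i
        have h2 := h1 i (mem_univ i)
        unfold Xf at h2
        by_cases hi : i = j0
        · subst hi
          rw [if_pos rfl, hidx μ] at h2
          rw [if_pos rfl]
          exact (floor_aux μ.val m hm (x i) (hx0 i)).mpr h2
        · rw [if_neg hi] at h2
          rw [if_neg hi]
          exact (floor_aux _ (p ^ n) hp (x i) (hx0 i)).mpr h2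
    push_cast at hiff
    by_cases hc : ∀ i ∈ (univ : Finset (Fin d)), idx (hh μ i + σ i) < Xf j0 m (p ^ n) x i
    · rw [if_pos hc, if_pos (hiff.2 hc)]
      simp
    · rw [if_neg hc, if_neg (fun h => hc (hiff.1 h))]

theorem round_one' (N : ℕ) (t : ℝ) (h0 : 0 ≤ t) : |t * N - (⌊t * N⌋₊ : ℕ)| ≤ 1 := by
  have hf1 : (⌊t * N⌋₊ : ℝ) ≤ t * N := Nat.floor_le (by positivity)
  have hf2 : t * N < (⌊t * N⌋₊ : ℝ) + 1 := Nat.lt_floor_add_one _
  rw [abs_le]; constructor <;> linarith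

theorem round_le' {d : ℕ} (j0 : Fin d) (m N : ℕ) (hN : 1 ≤ N) (hmN : m ≤ N) (x : Fin d → ℝ)
    (hx : ∀ i, 0 ≤ x i ∧ x i ≤ 1) :
    |(N : ℝ) * ∏ i, ((Xf j0 m N x i : ℝ) / N) - (m : ℝ) * ∏ i, x i| ≤ d := by
  classical
  have hN' : (0 : ℝ) < N := by exact_mod_cast hN
  have hm' : (0 : ℝ) ≤ m := Nat.cast_nonneg m
  have hd : 1 ≤ d := Nat.succ_le_of_lt (lt_of_le_of_lt (Nat.zero_le _) j0.isLt)
  have hx0 : ∀ i, 0 ≤ x i := fun i => (hx i).1
  have hx1 : ∀ i, x i ≤ 1 := fun i => (hx i).2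
  rw [← Finset.mul_prod_erase univ _ (mem_univ j0), ← Finset.mul_prod_erase univ x (mem_univ j0)]
  set A := ∏ i ∈ univ.erase j0, x i with hA
  set B := ∏ i ∈ univ.erase j0, ((Xf j0 m N x i : ℝ) / N) with hB
  have hX0 : |x j0 * m - (Xf j0 m N x j0 : ℝ)| ≤ 1 := by
    unfold Xf
    rw [if_pos rfl]
    exact round_one' m (x j0) (hx0 j0)
  have hXm : (Xf j0 m N x j0 : ℝ) ≤ m := by
    unfold Xf
    rw [if_pos rfl]
    have h1 : x j0 * m ≤ m := by nlinarith [hx1 j0]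
    exact (Nat.floor_le (by have := hx0 j0; positivity)).trans h1
  have hXle : ∀ i, (Xf j0 m N x i : ℝ) / N ≤ 1 := by
    intro i
    rw [div_le_one hN']
    exact_mod_cast Xf_le j0 m N hmN x hx i
  have hAB : |A - B| ≤ (d - 1) * (1 / N) := by
    have key : |A - B| ≤ ((univ.erase j0).card : ℝ) * (1 / N) := by
      have h2 := prod_diff (univ.erase j0) x
        (fun i => if i = j0 then x i else (Xf j0 m N x i : ℝ) / N) (1 / N) hx0 hx1
        (fun i => by
          show 0 ≤ if i = j0 then x i else (Xf j0 m N x i : ℝ) / N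
          split_ifs
          · exact hx0 i
          · positivity)
        (fun i => by
          show (if i = j0 then x i else (Xf j0 m N x i : ℝ) / N) ≤ 1
          split_ifs
          · exact hx1 i
          · exact hXle i)
        (fun i => by
          show |x i - (if i = j0 then x i else (Xf j0 m N x i : ℝ) / N)| ≤ 1 / N
          split_ifs with hi
          · rw [sub_self, abs_zero]; positivity
          · have h := round_one' N (x i) (hx0 i)
            have e : x i - (Xf j0 m N x i : ℝ) / N =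
                (x i * N - (⌊x i * N⌋₊ : ℕ)) / N := by
              unfold Xf
              rw [if_neg hi]
              field_simp
            rw [e, abs_div, abs_of_pos hN']
            exact div_le_div_of_nonneg_right h hN'.le)
      have h3 : ∏ i ∈ univ.erase j0, (if i = j0 then x i else (Xf j0 m N x i : ℝ) / N) = B := by
        apply Finset.prod_congr rfl
        intro i hi
        rw [if_neg (Finset.ne_of_mem_erase hi)]
      rw [h3] at h2
      exact h2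
    rw [Finset.card_erase_of_mem (mem_univ j0), Finset.card_univ, Fintype.card_fin,
      Nat.cast_sub hd, Nat.cast_one] at key
    exact key
  have hA0 : 0 ≤ A := Finset.prod_nonneg (fun j _ => hx0 _)
  have hA1 : A ≤ 1 := Finset.prod_le_one (fun j _ => hx0 _) (fun j _ => hx1 _)
  have e : (N : ℝ) * ((Xf j0 m N x j0 : ℝ) / N * B) - (m : ℝ) * (x j0 * A) =
      -((x j0 * m - (Xf j0 m N x j0 : ℝ)) * A + (Xf j0 m N x j0 : ℝ) * (A - B)) := by
    field_simp
    ring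
  rw [e, abs_neg]
  have hXnn : (0 : ℝ) ≤ (Xf j0 m N x j0 : ℝ) := Nat.cast_nonneg _
  have hd1 : (1 : ℝ) ≤ d := by exact_mod_cast hd
  calc |(x j0 * m - (Xf j0 m N x j0 : ℝ)) * A + (Xf j0 m N x j0 : ℝ) * (A - B)|
      ≤ |(x j0 * m - (Xf j0 m N x j0 : ℝ)) * A| + |(Xf j0 m N x j0 : ℝ) * (A - B)| :=
        abs_add_le _ _
    _ = |x j0 * m - (Xf j0 m N x j0 : ℝ)| * A + (Xf j0 m N x j0 : ℝ) * |A - B| := by
        rw [abs_mul, abs_mul, abs_of_nonneg hA0, abs_of_nonneg hXnn]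
    _ ≤ 1 * 1 + (m : ℝ) * ((d - 1) * (1 / N)) := by
        apply add_le_add
        · exact mul_le_mul hX0 hA1 hA0 zero_le_one
        · exact mul_le_mul hXm hAB (abs_nonneg _) hm'
    _ ≤ d := by
        have h1 : (m : ℝ) ≤ N := by exact_mod_cast hmN
        have h2 : (m : ℝ) * ((d - 1) * (1 / N)) = (d - 1) * (m / N) := by ring
        have h3 : (m : ℝ) / N ≤ 1 := (div_le_one hN').mpr h1
        rw [h2]
        have h4 : ((d : ℝ) - 1) * (m / N) ≤ (d - 1) * 1 :=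
          mul_le_mul_of_nonneg_left h3 (by linarith)
        linarith

/-- **Families of point sets.** -/
theorem family (d' : ℕ) (hd : 1 ≤ d') (i0 : Fin (d' + 1)) : ∃ C : ℝ, 0 < C ∧ ∀ N : ℕ, 2 ≤ N →
    ∀ m : ℕ, m ≤ N → ∃ (S : Type) (_ : Fintype S) (_ : Nonempty S)
      (ξ : S → Fin m → Fin (d' + 1) → ℝ), (∀ σ μ i, 0 < ξ σ μ i ∧ ξ σ μ i ≤ 1) ∧
      ∀ x : Fin (d' + 1) → ℝ, (∀ i, 0 ≤ x i ∧ x i ≤ 1) →
        (∑ σ, dd (ξ σ) x ^ 2 ≤ C * (Real.log N) ^ d' * Fintype.card S) ∧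
        (x i0 = 1 → ∑ σ, dd (ξ σ) x ^ 2 ≤ C * (Real.log N) ^ (d' - 1) * Fintype.card S) := by
  classical
  obtain ⟨p, hkp, hp⟩ := Nat.exists_infinite_primes (d' + 1)
  have : Fact p.Prime := ⟨hp⟩
  obtain ⟨C0, hC0, hn⟩ := exists_n p hp.two_le
  obtain ⟨j0, hj0⟩ : ∃ j0 : Fin (d' + 1), j0 ≠ i0 := by
    have : Nontrivial (Fin (d' + 1)) := Fin.nontrivial_iff_two_le.2 (by omega)
    exact exists_ne i0
  set A : ℝ := (2 * ((d' : ℝ) + 1) ^ 2 + 4 * (p : ℝ) ^ (2 * (d' + 1))) with hA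
  have hA0 : 0 < A := by positivity
  refine ⟨A * C0 ^ d' + A * C0 ^ (d' - 1), by positivity, fun N hN m hm => ?_⟩
  obtain ⟨n, hmn, hlog⟩ := hn N hN
  obtain ⟨H, hcard, hbij, hvar⟩ := variance' p d' hd hkp n
  choose ξ hξ hξs using fun σ => exists_pts' p (d' + 1) n m (hm.trans hmn) H hbij σ j0
  refine ⟨Fin (d' + 1) → DS p n, inferInstance, ⟨0⟩, ξ, hξ, fun x hx => ?_⟩
  have hlog0 : 0 ≤ Real.log N := Real.log_nonneg (by exact_mod_cast (by omega : 1 ≤ N))
  have hNp : m ≤ p ^ n := hm.trans hmn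
  have hX : ∀ i, Xf j0 m (p ^ n) x i ≤ p ^ n := Xf_le j0 m (p ^ n) hNp x hx
  obtain ⟨hv1, hv2⟩ := hvar (Xf j0 m (p ^ n) x) hX
  have hr := round_le' j0 m (p ^ n) (Nat.one_le_pow _ _ hp.pos) hNp x hx
  have h4 : ∀ σ, dd (ξ σ) x ^ 2 ≤ 2 * ((d' : ℝ) + 1) ^ 2 +
      2 * DX p (d' + 1) n H (Xf j0 m (p ^ n) x) σ ^ 2 := by
    intro σ
    rw [hξs σ x hx]
    set R : ℝ := ((p ^ n : ℕ) : ℝ) * ∏ i, ((Xf j0 m (p ^ n) x i : ℝ) / (p ^ n : ℕ)) -
      (m : ℝ) * ∏ i, x i with hR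
    have h5 : R ^ 2 ≤ ((d' : ℝ) + 1) ^ 2 := by
      rw [← sq_abs R]
      push_cast at hr ⊢
      exact pow_le_pow_left₀ (abs_nonneg _) (by simpa [hR] using hr) 2
    have h6 : ∑ h ∈ H, ∏ i, ind p n (Xf j0 m (p ^ n) x i) (h i + σ i) - m * ∏ i, x i =
        DX p (d' + 1) n H (Xf j0 m (p ^ n) x) σ + R := by
      unfold DX
      rw [hR]
      push_cast
      ring
    rw [h6]
    nlinarith [sq_nonneg (R - DX p (d' + 1) n H (Xf j0 m (p ^ n) x) σ)]
  have hc : (Fintype.card (Fin (d' + 1) → DS p n) : ℝ) = (p : ℝ) ^ (n * (d' + 1)) := by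
    rw [Fintype.card_fun, Fintype.card_fun, ZMod.card, Fintype.card_fin, Fintype.card_fin]
    push_cast
    rw [pow_mul]
  have hcp : (0 : ℝ) < (p : ℝ) ^ (n * (d' + 1)) := by
    have := hp.pos
    positivity
  have hn0 : (0 : ℝ) ≤ n := Nat.cast_nonneg n
  have key : ∀ e : ℕ, ∑ σ, DX p (d' + 1) n H (Xf j0 m (p ^ n) x) σ ^ 2 ≤
      2 * (p : ℝ) ^ (2 * (d' + 1)) * (n + 1) ^ e * (p : ℝ) ^ (n * (d' + 1)) →
      ∑ σ, dd (ξ σ) x ^ 2 ≤ A * C0 ^ e * (Real.log N) ^ e *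
        Fintype.card (Fin (d' + 1) → DS p n) := by
    intro e he
    have h3 : (1 : ℝ) ≤ ((n : ℝ) + 1) ^ e := one_le_pow₀ (by linarith)
    have h2 : ((n : ℝ) + 1) ^ e ≤ (C0 * Real.log N) ^ e := pow_le_pow_left₀ (by positivity) hlog e
    rw [hc]
    calc ∑ σ, dd (ξ σ) x ^ 2 ≤ ∑ σ : Fin (d' + 1) → DS p n, (2 * ((d' : ℝ) + 1) ^ 2 +
        2 * DX p (d' + 1) n H (Xf j0 m (p ^ n) x) σ ^ 2) := Finset.sum_le_sum fun σ _ => h4 σ
      _ = 2 * ((d' : ℝ) + 1) ^ 2 * (p : ℝ) ^ (n * (d' + 1)) +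
        2 * ∑ σ, DX p (d' + 1) n H (Xf j0 m (p ^ n) x) σ ^ 2 := by
          rw [Finset.sum_add_distrib, Finset.sum_const, ← Finset.mul_sum,
            Finset.card_univ, nsmul_eq_mul, hc]
          ring
      _ ≤ 2 * ((d' : ℝ) + 1) ^ 2 * (p : ℝ) ^ (n * (d' + 1)) +
        2 * (2 * (p : ℝ) ^ (2 * (d' + 1)) * (n + 1) ^ e * (p : ℝ) ^ (n * (d' + 1))) := by
          linarith
      _ ≤ A * ((n : ℝ) + 1) ^ e * (p : ℝ) ^ (n * (d' + 1)) := by
          rw [hA]
          have h7 : 2 * ((d' : ℝ) + 1) ^ 2 * (p : ℝ) ^ (n * (d' + 1)) ≤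
              2 * ((d' : ℝ) + 1) ^ 2 * (p : ℝ) ^ (n * (d' + 1)) * ((n : ℝ) + 1) ^ e :=
            le_mul_of_one_le_right (by positivity) h3
          nlinarith
      _ ≤ A * (C0 * Real.log N) ^ e * (p : ℝ) ^ (n * (d' + 1)) := by gcongr
      _ = _ := by rw [mul_pow]; ring
  constructor
  · refine (key d' hv1).trans ?_
    have h8 : 0 ≤ A * C0 ^ (d' - 1) * (Real.log N) ^ d' * Fintype.card (Fin (d' + 1) → DS p n) := by
      positivity
    nlinarith
  · intro hxi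
    have hfull : Xf j0 m (p ^ n) x i0 = p ^ n := by
      unfold Xf
      rw [if_neg (Ne.symm hj0), hxi, one_mul, Nat.floor_natCast]
    refine (key (d' - 1) (hv2 i0 hfull)).trans ?_
    have h8 : 0 ≤ A * C0 ^ d' * (Real.log N) ^ (d' - 1) *
        Fintype.card (Fin (d' + 1) → DS p n) := by
      positivity
    nlinarith

end Pool.Agent.U902.PT
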