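import Pool.Agent.U902.PT.Qt
import Pool.Agent.TH635.NS.SetM

set_option autoImplicit false

/-!
# Product target measures: the lower bound
-/

namespace Pool.Agent.U902.PT

open MeasureTheory ProbabilityTheory Set Filter Topology Function

/-- the discrepancy function of weighted points with respect to `M` times the product measure -/
noncomputable def DP {n d : ℕ} (w : Fin n → ℝ) (ξ : Fin n → Fin d → ℝ) (M : ℝ)
    (μ : Fin d → Measure ℝ) (x : Fin d → ℝ) : ℝ := by
  classical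
  exact ∑ j, (if ∀ i, ξ j i ≤ x i then w j else 0) - M * ∏ i, cdf (μ i) (x i)

theorem measurable_DP {n d : ℕ} (w : Fin n → ℝ) (ξ : Fin n → Fin d → ℝ) (M : ℝ)
    (μ : Fin d → Measure ℝ) : Measurable (DP w ξ M μ) := by
  classical
  unfold DP
  apply Measurable.sub
  · apply Finset.measurable_fun_sum
    intro j _
    apply Measurable.ite _ measurable_const measurable_const
    have : {x : Fin d → ℝ | ∀ i, ξ j i ≤ x i} = ⋂ i, {x : Fin d → ℝ | ξ j i ≤ x i} := by
      ext x
      simp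
    rw [this]
    exact MeasurableSet.iInter fun i => measurableSet_le measurable_const (measurable_pi_apply i)
  · apply Measurable.const_mul
    apply Finset.measurable_fun_prod
    intro i _
    exact (monotone_cdf (μ i)).measurable.comp (measurable_pi_apply i)

/-- the set of the points which are not atoms -/
def NA (μ : Measure ℝ) : Set ℝ := {x | μ {x} = 0}

theorem measurableSet_NA (μ : Measure ℝ) [IsProbabilityMeasure μ] : MeasurableSet (NA μ) := by
  have h : Set.Countable {x : ℝ | 0 < μ {x}} :=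
    Measure.countable_meas_pos_of_disjoint_iUnion (fun x => measurableSet_singleton x)
      (fun x y hxy => Set.disjoint_singleton.2 hxy)
  have h2 : NA μ = {x : ℝ | 0 < μ {x}}ᶜ := by
    ext x
    simp [NA]
  rw [h2]
  exact h.measurableSet.compl

/-- the quantile map -/
noncomputable def QQ {d : ℕ} (μ : Fin d → Measure ℝ) (u : Fin d → ℝ) (i : Fin d) : ℝ :=
  Q (μ i) (u i)

section
variable {d : ℕ} (μ : Fin d → Measure ℝ) [∀ i, IsProbabilityMeasure (μ i)]
  (hμ : ∀ i, μ i (Icc (0 : ℝ) 1)ᶜ = 0)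
include hμ

theorem mp_QQ : MeasurePreserving (QQ μ)
    (volume.restrict (Set.pi univ fun _ : Fin d => Ioc (0 : ℝ) 1)) (Measure.pi μ) := by
  have h1 := measurePreserving_pi (fun _ : Fin d => volume.restrict (Ioc (0 : ℝ) 1)) μ
    (f := fun i => Q (μ i)) (fun i => ⟨measurable_Q (μ i) (hμ i), map_Q (μ i) (hμ i)⟩)
  have h2 : volume.restrict (Set.pi univ fun _ : Fin d => Ioc (0 : ℝ) 1) =
      Measure.pi (fun _ : Fin d => volume.restrict (Ioc (0 : ℝ) 1)) := by
    rw [volume_pi, Measure.restrict_pi_pi]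
  rw [h2]
  exact h1

/-- the good set -/
def Egood {d : ℕ} (μ : Fin d → Measure ℝ) (i : Fin d) : Set ℝ :=
  {u | u ∈ Ioc (0 : ℝ) 1 ∧ cdf (μ i) (Q (μ i) u) = u}

theorem measurableSet_Egood (i : Fin d) : MeasurableSet (Egood μ i) := by
  apply MeasurableSet.inter measurableSet_Ioc
  exact measurableSet_eq_fun ((monotone_cdf (μ i)).measurable.comp (measurable_Q (μ i) (hμ i)))
    measurable_id

theorem volume_Egood (i : Fin d) : μ i (NA (μ i)) ≤ volume (Egood μ i) := by
  have h1 : μ i (NA (μ i)) = volume (Q (μ i) ⁻¹' NA (μ i) ∩ Ioc (0 : ℝ) 1) := by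
    conv_lhs => rw [← map_Q (μ i) (hμ i)]
    rw [Measure.map_apply (measurable_Q (μ i) (hμ i))]
    · rw [Measure.restrict_apply]
      · rw [map_Q (μ i) (hμ i)]
      · rw [map_Q (μ i) (hμ i)]
        exact measurable_Q (μ i) (hμ i) (measurableSet_NA (μ i))
    · rw [map_Q (μ i) (hμ i)]
      exact measurableSet_NA (μ i)
  rw [h1]
  apply measure_mono
  rintro u ⟨hu1, hu2⟩
  refine ⟨hu2, le_antisymm ?_ (le_cdf_Q (μ i) (hμ i) hu2.2)⟩
  by_contra hcon
  exact atom_of_lt (μ i) (hμ i) hu2.1 hu2.2 (not_le.1 hcon) hu1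

theorem volume_Egood_pi : ∏ i, μ i (NA (μ i)) ≤ volume (Set.pi univ (Egood μ)) := by
  rw [volume_pi_pi]
  exact Finset.prod_le_prod' fun i _ => volume_Egood μ hμ i

/-- the discrepancy function in the uniform coordinates -/
theorem DP_QQ {n : ℕ} (w : Fin n → ℝ) (ξ : Fin n → Fin d → ℝ) (M : ℝ) (u : Fin d → ℝ)
    (hu : u ∈ Set.pi univ (Egood μ)) (hne : ∀ j i, u i ≠ leftLim (cdf (μ i)) (ξ j i)) :
    DP w ξ M μ (QQ μ u) = TH635.NS.DM Finset.univ w (fun j i => leftLim (cdf (μ i)) (ξ j i)) M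
      (volume.restrict (Icc (0 : Fin d → ℝ) 1)) u := by
  classical
  have hE : ∀ i, u i ∈ Ioc (0 : ℝ) 1 ∧ cdf (μ i) (Q (μ i) (u i)) = u i := fun i =>
    hu i (mem_univ i)
  unfold DP TH635.NS.DM
  congr 1
  · apply Finset.sum_congr rfl
    intro j _
    have h1 : (∀ i, ξ j i ≤ QQ μ u i) ↔ ∀ i, leftLim (cdf (μ i)) (ξ j i) ≤ u i :=
      forall_congr' fun i => le_Q_iff (μ i) (hμ i) (ξ j i) (hE i).1.1 (hE i).1.2 (hne j i)
    simp only [h1]
  · congr 1
    rw [measureReal_def, Measure.restrict_apply measurableSet_Iic]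
    have hset : Iic u ∩ Icc (0 : Fin d → ℝ) 1 = Icc 0 u := by
      ext y
      constructor
      · rintro ⟨h1, h2, _⟩
        exact ⟨h2, h1⟩
      · rintro ⟨h1, h2⟩
        exact ⟨h2, h1, fun i => (h2 i).trans (hE i).1.2⟩
    rw [hset, Real.volume_Icc_pi]
    rw [ENNReal.toReal_prod]
    apply Finset.prod_congr rfl
    intro i _
    rw [Pi.zero_apply, sub_zero, ENNReal.toReal_ofReal (hE i).1.1.le]
    exact (hE i).2

end

/-- **The lower bound.** -/
theorem lower (d : ℕ) (hd : 1 ≤ d) : ∃ κ : ℝ, 0 < κ ∧ ∀ μ : Fin d → Measure ℝ,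
    (∀ i, IsProbabilityMeasure (μ i)) → (∀ i, μ i (Icc (0 : ℝ) 1)ᶜ = 0) →
    (∀ i, μ i (NA (μ i)) ≠ 0) → ∀ K : ℝ, ∃ b : ℝ, 0 < b ∧ ∀ᶠ M : ℝ in atTop,
      ∀ n : ℕ, (n : ℝ) ≤ K * M → ∀ (w : Fin n → ℝ) (ξ : Fin n → Fin d → ℝ),
        ENNReal.ofReal κ * ∏ i, μ i (NA (μ i)) ≤ Measure.pi μ
          {x | b * (Real.log M) ^ (((d : ℝ) - 1) / 2) ≤ |DP w ξ M μ x|} := by
  obtain ⟨κ, hκ, H⟩ := TH635.NS.setm_weighted d hd
  refine ⟨κ, hκ, ?_⟩
  intro μ hprob hμ hna K
  set V : Measure (Fin d → ℝ) := volume.restrict (Icc (0 : Fin d → ℝ) 1) with hV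
  have hVfin : IsFiniteMeasure V := by
    constructor
    rw [hV, Measure.restrict_apply_univ, TH635.AN.volume_unit]
    exact ENNReal.one_lt_top
  set E₀ : Set (Fin d → ℝ) := Set.pi univ (Egood μ) with hE₀
  have hE₀m : MeasurableSet E₀ := MeasurableSet.univ_pi (measurableSet_Egood μ hμ)
  set E : Set (Fin d → ℝ) := E₀ ∩ {x | V.rnDeriv volume x ≠ 0} with hE
  have hEm : MeasurableSet E :=
    hE₀m.inter ((Measure.measurable_rnDeriv V volume) (measurableSet_singleton 0).compl)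
  have hE₀sub : E₀ ⊆ Icc (0 : Fin d → ℝ) 1 := by
    intro u hu
    exact ⟨fun i => (hu i (mem_univ i)).1.1.le, fun i => (hu i (mem_univ i)).1.2⟩
  have hEvol : volume E = volume E₀ := by
    apply le_antisymm (measure_mono inter_subset_left)
    have h1 := Measure.rnDeriv_restrict_self (volume : Measure (Fin d → ℝ))
      (measurableSet_Icc (a := (0 : Fin d → ℝ)) (b := 1))
    have h2 : volume (E₀ \ E) = 0 := by
      apply measure_mono_null _ h1
      intro u hu hcon
      apply hu.2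
      refine ⟨hu.1, ?_⟩
      rw [mem_setOf_eq, hcon, indicator_of_mem (hE₀sub hu.1)]
      exact one_ne_zero
    calc volume E₀ ≤ volume (E ∪ E₀ \ E) := measure_mono (by
          intro u hu
          by_cases h : u ∈ E
          · exact Or.inl h
          · exact Or.inr ⟨hu, h⟩)
      _ ≤ volume E + volume (E₀ \ E) := measure_union_le _ _
      _ = volume E := by rw [h2, add_zero]
  have hEpos : 0 < volume E := by
    rw [hEvol]
    refine lt_of_lt_of_le ?_ (volume_Egood_pi μ hμ)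
    exact pos_iff_ne_zero.2 (Finset.prod_ne_zero_iff.2 fun i _ => hna i)
  have hEfin : volume E ≠ ⊤ := by
    refine ne_top_of_le_ne_top ?_ (measure_mono (inter_subset_left.trans hE₀sub))
    rw [TH635.AN.volume_unit]
    exact ENNReal.one_ne_top
  obtain ⟨c, hc, Hc⟩ := H V E hEm hEfin hEpos (fun x hx => hx.2) K
  refine ⟨c, hc, ?_⟩
  filter_upwards [Hc] with M hM n hn w ξ
  have h1 := hM (Fin n) Finset.univ w (fun j i => leftLim (cdf (μ i)) (ξ j i)) (by simpa using hn)
  set t : ℝ := c * (Real.log M) ^ (((d : ℝ) - 1) / 2) with ht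
  set bad : Set (Fin d → ℝ) := ⋃ j : Fin n, ⋃ i : Fin d,
    {u | u i = leftLim (cdf (μ i)) (ξ j i)} with hbad
  have hbad0 : volume bad = 0 := by
    rw [hbad, measure_iUnion_null_iff]
    intro j
    rw [measure_iUnion_null_iff]
    intro i
    rw [volume_pi]
    exact Measure.pi_hyperplane (fun _ : Fin d => (volume : Measure ℝ)) i _
  have hmp := mp_QQ μ hμ
  have hmeas : MeasurableSet {x : Fin d → ℝ | t ≤ |DP w ξ M μ x|} :=
    measurableSet_le measurable_const (measurable_DP w ξ M μ).abs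
  calc ENNReal.ofReal κ * ∏ i, μ i (NA (μ i)) ≤ ENNReal.ofReal κ * volume E := by
        rw [hEvol]
        gcongr
        exact volume_Egood_pi μ hμ
    _ ≤ volume {x | x ∈ E ∧ t ≤ |TH635.NS.DM Finset.univ w
          (fun j i => leftLim (cdf (μ i)) (ξ j i)) M V x|} := h1
    _ ≤ volume ((QQ μ ⁻¹' {x | t ≤ |DP w ξ M μ x|} ∩ Set.pi univ fun _ : Fin d => Ioc (0 : ℝ) 1)
          ∪ bad) := by
        apply measure_mono
        rintro u ⟨hu1, hu2⟩
        by_cases hb : u ∈ bad
        · exact Or.inr hb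
        · refine Or.inl ⟨?_, fun i _ => (hu1.1 i (mem_univ i)).1⟩
          have hne : ∀ j i, u i ≠ leftLim (cdf (μ i)) (ξ j i) := by
            intro j i h
            apply hb
            rw [hbad, mem_iUnion]
            exact ⟨j, mem_iUnion.2 ⟨i, h⟩⟩
          show t ≤ |DP w ξ M μ (QQ μ u)|
          rw [DP_QQ μ hμ w ξ M u hu1.1 hne]
          exact hu2
    _ ≤ volume (QQ μ ⁻¹' {x | t ≤ |DP w ξ M μ x|} ∩ Set.pi univ fun _ : Fin d => Ioc (0 : ℝ) 1)
          + volume bad := measure_union_le _ _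
    _ = volume (QQ μ ⁻¹' {x | t ≤ |DP w ξ M μ x|} ∩ Set.pi univ fun _ : Fin d => Ioc (0 : ℝ) 1) := by
        rw [hbad0, add_zero]
    _ = (volume.restrict (Set.pi univ fun _ : Fin d => Ioc (0 : ℝ) 1))
          (QQ μ ⁻¹' {x | t ≤ |DP w ξ M μ x|}) := by
        rw [Measure.restrict_apply (hmp.measurable hmeas)]
    _ = Measure.pi μ {x | t ≤ |DP w ξ M μ x|} := hmp.measure_preimage hmeas.nullMeasurableSet

end Pool.Agent.U902.PT
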