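import Pool.Agent.H730R2.LU.Fin

set_option autoImplicit false

/-!
# Second moments over the digital shifts, with one coordinate of the corner equal to one
-/

namespace Pool.Agent.U902.PT

open Finset MeasureTheory Pool.Agent.H730R2.LU

/-- the tail of the level sum with a vanishing coordinate -/
theorem level_face (p d' : ℕ) (hp : 2 ≤ p) (hd : 1 ≤ d') (n : ℕ) (i0 : Fin (d' + 1)) :
    ∑ l ∈ (Fintype.piFinset (fun _ : Fin (d' + 1) => range (n + 1))).filter
      (fun l => n < ∑ i, l i ∧ l i0 = 0),
      (1 : ℝ) / p ^ (∑ i, l i) ≤ 2 * (n + 1) ^ (d' - 1) / p ^ n := by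
  refine le_trans (le_of_eq ?_) (level_sum p d' hp hd n)
  have hsum : ∀ l : Fin (d' + 1) → ℕ, ∑ i, l i = l i0 + ∑ i, (i0.removeNth l) i := by
    intro l
    rw [Fin.sum_univ_succAbove _ i0]
    rfl
  apply Finset.sum_nbij' (fun l => i0.removeNth l) (fun l => i0.insertNth 0 l)
  · intro l hl
    simp only [Finset.mem_filter, Fintype.mem_piFinset, Finset.mem_range] at hl ⊢
    refine ⟨fun i => hl.1 _, ?_⟩
    have := hsum l
    rw [hl.2.2, zero_add] at this
    rw [← this]
    exact hl.2.1
  · intro l hl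
    simp only [Finset.mem_filter, Fintype.mem_piFinset, Finset.mem_range] at hl ⊢
    refine ⟨fun i => ?_, ?_, by simp⟩
    · refine Fin.succAboveCases i0 ?_ (fun j => ?_) i
      · simp
      · simpa using hl.1 j
    · rw [hsum]
      simpa using hl.2
  · intro l hl
    simp only [Finset.mem_filter] at hl
    have := Fin.insertNth_self_removeNth i0 l
    rw [hl.2.2] at this
    exact this
  · intro l _
    simp
  · intro l hl
    simp only [Finset.mem_filter] at hl
    rw [hsum l, hl.2.2, zero_add]

/-- the correlation of the full interval -/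
theorem cor_full (p n : ℕ) [Fact p.Prime] (h : DS p n) : cor p n (p ^ n) h = 1 := by
  have hp : (p : ℝ) ^ n ≠ 0 := pow_ne_zero _ (Nat.cast_ne_zero.2 (Fact.out : p.Prime).ne_zero)
  unfold cor ind
  have : ∀ σ : DS p n, idx σ < p ^ n := fun σ => idx_lt σ
  simp only [this, if_true, mul_one, Finset.sum_const, Finset.card_univ, nsmul_eq_mul]
  rw [Fintype.card_fun, ZMod.card, Fintype.card_fin]
  push_cast
  field_simp

/-- decomposition of the correlation; for the full interval only the level zero occurs -/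
theorem exists_g' (p n : ℕ) [Fact p.Prime] (X : ℕ) (hX : X ≤ p ^ n) :
    ∃ g : ℕ → DS p n → ℝ, (∀ h, cor p n X h = ∑ l ∈ range (n + 1), g l h) ∧
      (∀ h, g 0 h = ((X : ℝ) / p ^ n) ^ 2) ∧
      (∀ l, 1 ≤ l → l ≤ n → ∑ h, g l h = 0) ∧
      (∀ l, l ≤ n → ∀ h h' : DS p n, (∀ j : Fin n, j.val < l → h j = h' j) → g l h = g l h') ∧
      (∀ l, l ≤ n → ∀ h, |g l h| ≤ p * (1 / p ^ l)) ∧
      (∀ l, 1 ≤ l → l ≤ n → ∀ h, (∃ j : Fin n, j.val < l - 1 ∧ h j ≠ 0) → g l h = 0) ∧
      (X = p ^ n → ∀ l, 1 ≤ l → ∀ h, g l h = 0) := by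
  by_cases hXn : X = p ^ n
  · subst hXn
    have hp1 : (1 : ℝ) ≤ p := by exact_mod_cast (Fact.out : p.Prime).one_lt.le
    have hp : (p : ℝ) ^ n ≠ 0 := pow_ne_zero _ (by linarith)
    refine ⟨fun l _ => if l = 0 then 1 else 0, ?_, ?_, ?_, ?_, ?_, ?_, ?_⟩
    · intro h
      rw [cor_full]
      simp
    · intro h
      simp [hp]
    · intro l hl _
      have h0 : l ≠ 0 := by omega
      simp [h0]
    · intro l _ h h' _
      rfl
    · intro l _ h
      by_cases h0 : l = 0
      · subst h0
        simpa using hp1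
      · simp only [if_neg h0, abs_zero]
        positivity
    · intro l hl _ h _
      have h0 : l ≠ 0 := by omega
      simp [h0]
    · intro _ l hl h
      have h0 : l ≠ 0 := by omega
      simp [h0]
  · obtain ⟨g, h1, h2, h3, h4, h5, h6⟩ := exists_g p n X hX
    exact ⟨g, h1, h2, h3, h4, h5, h6, fun h => absurd h hXn⟩

/-- variance over the digital shifts, also for corners with a full coordinate -/
theorem variance' (p d' : ℕ) [Fact p.Prime] (hd : 1 ≤ d') (hdp : d' + 1 ≤ p) (n : ℕ) :
    ∃ H : Finset (Fin (d' + 1) → DS p n), H.card = p ^ n ∧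
      (∀ (i : Fin (d' + 1)) (b : DS p n), (H.filter (fun h => h i = b)).card = 1) ∧
      ∀ X : Fin (d' + 1) → ℕ, (∀ i, X i ≤ p ^ n) →
        (∑ σ, DX p (d' + 1) n H X σ ^ 2 ≤
          2 * (p : ℝ) ^ (2 * (d' + 1)) * (n + 1) ^ d' * (p : ℝ) ^ (n * (d' + 1))) ∧
        ∀ i0, X i0 = p ^ n → ∑ σ, DX p (d' + 1) n H X σ ^ 2 ≤
          2 * (p : ℝ) ^ (2 * (d' + 1)) * (n + 1) ^ (d' - 1) * (p : ℝ) ^ (n * (d' + 1)) := by
  classical
  have hp1 : 1 ≤ p := (Fact.out : p.Prime).one_le
  have hp2 : 2 ≤ p := (Fact.out : p.Prime).two_le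
  have hpR : (1 : ℝ) ≤ p := by exact_mod_cast hp1
  have hp0 : (0 : ℝ) < p := by linarith
  have hd1 : 1 ≤ d' + 1 := by omega
  obtain ⟨H, hH, hH1, hH2⟩ := exists_net p (d' + 1) n hd1 hdp
  refine ⟨H, hH, ?_, ?_⟩
  · intro i b
    have hsum : ∑ j, (Function.update (0 : Fin (d' + 1) → ℕ) i n) j = n := by
      rw [Finset.sum_update_of_mem (Finset.mem_univ i)]
      simp
    have h1 := hH1 (Function.update 0 i n) (by
      intro j
      rcases eq_or_ne j i with rfl | hj
      · simp
      · simp [Function.update_of_ne hj]) (by rw [hsum]) (fun _ => b)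
    rw [hsum, Nat.sub_self, pow_zero] at h1
    refine Eq.trans ?_ h1
    congr 1
    apply Finset.filter_congr
    intro h _
    constructor
    · intro hb j l hl
      rcases eq_or_ne j i with rfl | hj
      · rw [hb]
      · simp [Function.update_of_ne hj] at hl
    · intro hb
      funext l
      exact hb i l (by simp)
  · intro X hX
    have hg := fun i => exists_g' p n (X i) (hX i)
    choose g hg1 hg2 hg3 hg4 hg5 hg6 hg7 using hg
    have hps := fun (l : Fin (d' + 1) → ℕ) (hl : ∀ i, l i ≤ n) (h : Fin (d' + 1) → DS p n) =>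
      pair_sum p (d' + 1) n hd1 H hH1 hH2 g hg3 hg4 hg5 hg6 l hl h
    set P : Finset (Fin (d' + 1) → ℕ) := Fintype.piFinset (fun _ => range (n + 1)) with hP
    have hmemP : ∀ l, l ∈ P ↔ ∀ i, l i ≤ n := by
      intro l
      simp [hP, Fintype.mem_piFinset]
    have hexp : ∑ h ∈ H, ∑ h' ∈ H, ∏ i, cor p n (X i) (h' i - h i) =
        ∑ l ∈ P, ∑ h ∈ H, ∑ h' ∈ H, ∏ i, g i (l i) (h' i - h i) := by
      have h1 : ∀ h h' : Fin (d' + 1) → DS p n, ∏ i, cor p n (X i) (h' i - h i) =
          ∑ l ∈ P, ∏ i, g i (l i) (h' i - h i) := by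
        intro h h'
        rw [hP, ← Finset.prod_univ_sum (fun _ : Fin (d' + 1) => range (n + 1))
          (fun i l => g i l (h' i - h i))]
        exact Finset.prod_congr rfl (fun i _ => hg1 i _)
      simp_rw [h1]
      rw [Finset.sum_comm (s := P) (t := H)]
      apply Finset.sum_congr rfl
      intro h _
      rw [Finset.sum_comm]
    have h0P : (0 : Fin (d' + 1) → ℕ) ∈ P := by rw [hmemP]; intro i; simp
    have hzero : ∑ h ∈ H, ∑ h' ∈ H, ∏ i, g i ((0 : Fin (d' + 1) → ℕ) i) (h' i - h i) =
        ((p : ℝ) ^ n * ∏ i, ((X i : ℝ) / p ^ n)) ^ 2 := by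
      simp only [Pi.zero_apply, hg2]
      rw [Finset.prod_pow]
      rw [Finset.sum_const, Finset.sum_const, hH]
      simp only [nsmul_eq_mul]
      push_cast
      ring
    have hgen : ∀ (R : (Fin (d' + 1) → ℕ) → Prop) [DecidablePred R] (B : ℝ),
        (∀ l, (∀ i, l i ≤ n) → ¬ R l → ∀ h h' : Fin (d' + 1) → DS p n,
          ∏ i, g i (l i) (h' i - h i) = 0) →
        ∑ l ∈ P.filter (fun l => n < ∑ i, l i ∧ R l), (1 : ℝ) / p ^ (∑ i, l i) ≤
          2 * B / p ^ n →
        ∑ σ, DX p (d' + 1) n H X σ ^ 2 ≤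
          2 * (p : ℝ) ^ (2 * (d' + 1)) * B * (p : ℝ) ^ (n * (d' + 1)) := by
      intro R _ B hR hB
      rw [sum_DX_sq p (d' + 1) n H hH X hX]
      rw [hexp, ← Finset.add_sum_erase P _ h0P, hzero, add_sub_cancel_left]
      have hrest : ∑ l ∈ P.erase 0, ∑ h ∈ H, ∑ h' ∈ H, ∏ i, g i (l i) (h' i - h i) ≤
          2 * (p : ℝ) ^ (2 * (d' + 1)) * B := by
        calc ∑ l ∈ P.erase 0, ∑ h ∈ H, ∑ h' ∈ H, ∏ i, g i (l i) (h' i - h i)
            ≤ ∑ l ∈ P.filter (fun l => n < ∑ i, l i ∧ R l),
                (p : ℝ) ^ n * ((p : ℝ) ^ (2 * (d' + 1)) * (1 / p ^ (∑ i, l i))) := by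
              have hsub : P.filter (fun l => n < ∑ i, l i ∧ R l) ⊆ P.erase 0 := by
                intro l hl
                rw [Finset.mem_filter] at hl
                rw [Finset.mem_erase]
                refine ⟨?_, hl.1⟩
                rintro rfl
                simp at hl
              rw [← Finset.sum_subset hsub]
              · apply Finset.sum_le_sum
                intro l hl
                rw [Finset.mem_filter, hmemP] at hl
                calc ∑ h ∈ H, ∑ h' ∈ H, ∏ i, g i (l i) (h' i - h i)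
                    ≤ ∑ h ∈ H, (p : ℝ) ^ (2 * (d' + 1)) * (1 / p ^ (∑ i, l i)) := by
                      apply Finset.sum_le_sum
                      intro h _
                      exact (le_abs_self _).trans ((hps l hl.1 h).2 hl.2.1)
                  _ = _ := by
                      rw [Finset.sum_const, hH, nsmul_eq_mul]
                      push_cast
                      ring
              · intro l hl hl'
                rw [Finset.mem_erase, hmemP] at hl
                by_cases hRl : R l
                · have hle : ∑ i, l i ≤ n := by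
                    by_contra hc
                    apply hl'
                    rw [Finset.mem_filter, hmemP]
                    exact ⟨hl.2, not_le.mp hc, hRl⟩
                  apply Finset.sum_eq_zero
                  intro h _
                  exact (hps l hl.2 h).1 hl.1 hle
                · apply Finset.sum_eq_zero
                  intro h _
                  apply Finset.sum_eq_zero
                  intro h' _
                  exact hR l hl.2 hRl h h'
          _ = (p : ℝ) ^ n * (p : ℝ) ^ (2 * (d' + 1)) *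
                ∑ l ∈ P.filter (fun l => n < ∑ i, l i ∧ R l), (1 : ℝ) / p ^ (∑ i, l i) := by
              rw [Finset.mul_sum]
              apply Finset.sum_congr rfl
              intro l _
              ring
          _ ≤ (p : ℝ) ^ n * (p : ℝ) ^ (2 * (d' + 1)) * (2 * B / p ^ n) := by
              apply mul_le_mul_of_nonneg_left hB
              positivity
          _ = 2 * (p : ℝ) ^ (2 * (d' + 1)) * B := by
              field_simp
      calc (p : ℝ) ^ (n * (d' + 1)) *
            ∑ l ∈ P.erase 0, ∑ h ∈ H, ∑ h' ∈ H, ∏ i, g i (l i) (h' i - h i)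
          ≤ (p : ℝ) ^ (n * (d' + 1)) * (2 * (p : ℝ) ^ (2 * (d' + 1)) * B) := by
            apply mul_le_mul_of_nonneg_left hrest
            positivity
        _ = _ := by ring
    refine ⟨?_, ?_⟩
    · refine hgen (fun _ => True) _ (fun l _ h => absurd trivial h) ?_
      have := level_sum p (d' + 1) hp2 hd1 n
      simpa using this
    · intro i0 hi0
      refine hgen (fun l => l i0 = 0) _ (fun l hl h0 h h' => ?_) ?_
      · exact Finset.prod_eq_zero (Finset.mem_univ i0)
          (hg7 i0 hi0 (l i0) (Nat.one_le_iff_ne_zero.2 h0) _)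
      · exact level_face p d' hp2 hd n i0

end Pool.Agent.U902.PT
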