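import Mathlib

set_option autoImplicit false

/-!
# The quantile function of a probability measure on the unit interval
-/

namespace Pool.Agent.U902.PT

open MeasureTheory ProbabilityTheory Set Filter Topology Function

/-- the quantile function -/
noncomputable def Q (μ : Measure ℝ) (u : ℝ) : ℝ := sInf {x | x ∈ Icc (0 : ℝ) 1 ∧ min u 1 ≤ cdf μ x}

section
variable (μ : Measure ℝ) [IsProbabilityMeasure μ] (hμ : μ (Icc (0 : ℝ) 1)ᶜ = 0)
include hμ

theorem cdf_neg' {x : ℝ} (hx : x < 0) : cdf μ x = 0 := by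
  have h1 : μ (Iic x) = 0 := by
    apply measure_mono_null _ hμ
    intro y hy h
    exact absurd (lt_of_le_of_lt (mem_Iic.1 hy) hx) (not_lt.2 h.1)
  rw [cdf_eq_real, measureReal_def, h1, ENNReal.toReal_zero]

theorem cdf_one' {x : ℝ} (hx : 1 ≤ x) : cdf μ x = 1 := by
  have h1 : μ (Iic x) = 1 := by
    rw [← prob_compl_eq_zero_iff measurableSet_Iic]
    apply measure_mono_null _ hμ
    intro y hy h
    exact hy (le_trans h.2 hx)
  rw [cdf_eq_real, measureReal_def, h1, ENNReal.toReal_one]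

end

theorem Q_set_bdd (μ : Measure ℝ) (u : ℝ) :
    BddBelow {x | x ∈ Icc (0 : ℝ) 1 ∧ min u 1 ≤ cdf μ x} := ⟨0, fun _ h => h.1.1⟩

section
variable (μ : Measure ℝ) [IsProbabilityMeasure μ] (hμ : μ (Icc (0 : ℝ) 1)ᶜ = 0)
include hμ

theorem Q_one_mem (u : ℝ) : (1 : ℝ) ∈ {x | x ∈ Icc (0 : ℝ) 1 ∧ min u 1 ≤ cdf μ x} :=
  ⟨⟨zero_le_one, le_rfl⟩, by rw [cdf_one' μ hμ le_rfl]; exact min_le_right _ _⟩

theorem Q_mem (u : ℝ) : Q μ u ∈ Icc (0 : ℝ) 1 :=
  ⟨le_csInf ⟨1, Q_one_mem μ hμ u⟩ fun _ h => h.1.1, csInf_le (Q_set_bdd μ u) (Q_one_mem μ hμ u)⟩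

theorem monotone_Q : Monotone (Q μ) := by
  intro u v huv
  apply csInf_le_csInf (Q_set_bdd μ u) ⟨1, Q_one_mem μ hμ v⟩
  intro x hx
  exact ⟨hx.1, (min_le_min_right 1 huv).trans hx.2⟩

theorem measurable_Q : Measurable (Q μ) := (monotone_Q μ hμ).measurable

theorem le_cdf_Q {u : ℝ} (hu1 : u ≤ 1) : u ≤ cdf μ (Q μ u) := by
  by_contra hcon
  rw [not_le] at hcon
  have hr := (cdf μ).right_continuous (Q μ u)
  have h1 : ∀ᶠ y in 𝓝[>] (Q μ u), cdf μ y < u := by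
    have h2 : Tendsto (cdf μ) (𝓝[≥] (Q μ u)) (𝓝 (cdf μ (Q μ u))) := hr
    exact (h2.mono_left (nhdsWithin_mono _ Ioi_subset_Ici_self)).eventually (gt_mem_nhds hcon)
  obtain ⟨b, hb, hb1⟩ : ∃ b, Q μ u < b ∧ ∀ y ∈ Ioo (Q μ u) b, cdf μ y < u := by
    obtain ⟨b, hb, hsub⟩ := (mem_nhdsGT_iff_exists_Ioo_subset).1 h1
    exact ⟨b, hb, fun y hy => hsub hy⟩
  obtain ⟨x, hx, hxb⟩ := exists_lt_of_csInf_lt ⟨1, Q_one_mem μ hμ u⟩ hb
  have h3 : u ≤ cdf μ x := by
    have := hx.2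
    rwa [min_eq_left hu1] at this
  obtain ⟨y, hy1, hy2⟩ := exists_between hxb
  have h4 : Q μ u < y := lt_of_le_of_lt (csInf_le (Q_set_bdd μ u) hx) hy1
  have h5 := hb1 y ⟨h4, hy2⟩
  have h6 := monotone_cdf μ hy1.le
  linarith

theorem Q_le_iff {u x : ℝ} (hu0 : 0 < u) (hu1 : u ≤ 1) : Q μ u ≤ x ↔ u ≤ cdf μ x := by
  constructor
  · intro h
    exact (le_cdf_Q μ hμ hu1).trans (monotone_cdf μ h)
  · intro h
    have hx0 : 0 ≤ x := by
      by_contra hneg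
      rw [not_le] at hneg
      rw [cdf_neg' μ hμ hneg] at h
      linarith
    rcases le_total x 1 with hx1 | hx1
    · exact csInf_le (Q_set_bdd μ u) ⟨⟨hx0, hx1⟩, by rwa [min_eq_left hu1]⟩
    · exact (Q_mem μ hμ u).2.trans hx1

/-- the law of the quantile function -/
theorem map_Q : Measure.map (Q μ) (volume.restrict (Ioc (0 : ℝ) 1)) = μ := by
  have hfin : IsProbabilityMeasure (volume.restrict (Ioc (0 : ℝ) 1)) := by
    constructor
    rw [Measure.restrict_apply_univ, Real.volume_Ioc]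
    simp
  have : IsProbabilityMeasure (Measure.map (Q μ) (volume.restrict (Ioc (0 : ℝ) 1))) :=
    Measure.isProbabilityMeasure_map (measurable_Q μ hμ).aemeasurable
  apply Measure.ext_of_Iic
  intro a
  rw [Measure.map_apply (measurable_Q μ hμ) measurableSet_Iic,
    Measure.restrict_apply (measurable_Q μ hμ measurableSet_Iic)]
  have hset : Q μ ⁻¹' Iic a ∩ Ioc 0 1 = Ioc 0 (cdf μ a) := by
    ext u
    constructor
    · rintro ⟨h1, h2, h3⟩
      exact ⟨h2, (Q_le_iff μ hμ h2 h3).1 h1⟩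
    · rintro ⟨h1, h2⟩
      have h3 : u ≤ 1 := h2.trans (cdf_le_one μ a)
      exact ⟨(Q_le_iff μ hμ h1 h3).2 h2, h1, h3⟩
  rw [hset, Real.volume_Ioc, sub_zero, ofReal_cdf]

/-- a number which is not reached is inside the jump at an atom -/
theorem atom_of_lt {u : ℝ} (hu0 : 0 < u) (hu1 : u ≤ 1) (h : u < cdf μ (Q μ u)) :
    μ {Q μ u} ≠ 0 := by
  intro h0
  have h1 : leftLim (cdf μ) (Q μ u) ≤ u := by
    apply le_of_tendsto ((cdf μ).mono.tendsto_leftLim (Q μ u))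
    filter_upwards [self_mem_nhdsWithin] with x hx
    by_contra hcon
    rw [not_le] at hcon
    exact absurd ((Q_le_iff μ hμ hu0 hu1).2 hcon.le) (not_le.2 hx)
  have h2 : μ {Q μ u} = ENNReal.ofReal (cdf μ (Q μ u) - leftLim (cdf μ) (Q μ u)) := by
    have h3 := (cdf μ).measure_singleton (Q μ u)
    rwa [measure_cdf μ] at h3
  rw [h2, ENNReal.ofReal_eq_zero] at h0
  linarith

/-- comparison with a fixed number -/
theorem le_Q_iff (ξ : ℝ) {u : ℝ} (hu0 : 0 < u) (hu1 : u ≤ 1) (hne : u ≠ leftLim (cdf μ) ξ) :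
    ξ ≤ Q μ u ↔ leftLim (cdf μ) ξ ≤ u := by
  have key1 : Q μ u < ξ → u ≤ leftLim (cdf μ) ξ := fun h =>
    (le_cdf_Q μ hμ hu1).trans ((cdf μ).mono.le_leftLim h)
  have key2 : u < leftLim (cdf μ) ξ → Q μ u < ξ := by
    intro h
    have h1 := ((cdf μ).mono.tendsto_leftLim ξ).eventually (lt_mem_nhds h)
    obtain ⟨x, hx1, hx2⟩ := (h1.and self_mem_nhdsWithin).exists
    exact lt_of_le_of_lt ((Q_le_iff μ hμ hu0 hu1).2 hx1.le) hx2
  constructor
  · intro h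
    by_contra hcon
    exact absurd (key2 (not_le.1 hcon)) (not_lt.2 h)
  · intro h
    by_contra hcon
    exact hne (le_antisymm (key1 (not_le.1 hcon)) h)

end

end Pool.Agent.U902.PT
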