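import Pool.Agent.U902.PT.Fam
import Pool.Agent.U902.PT.Low

set_option autoImplicit false

/-!
# Product target measures: the upper bound for a marginal which is cut into pieces
-/

namespace Pool.Agent.U902.PT

open MeasureTheory ProbabilityTheory Set Filter Topology Function

/-- averaging -/
theorem exists_le_avg {S : Type} [Fintype S] [Nonempty S] (a : S → ENNReal) (b : ENNReal)
    (h : ∑ s, a s ≤ Fintype.card S * b) : ∃ s, a s ≤ b := by
  by_contra hcon
  push Not at hcon
  have h1 : ∑ _s : S, b < ∑ s, a s :=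
    ENNReal.sum_lt_sum_of_nonempty Finset.univ_nonempty (fun s _ => hcon s)
  rw [Finset.sum_const, Finset.card_univ, nsmul_eq_mul] at h1
  exact absurd h (not_le.2 h1)

/-- the part of the line where the distribution function of the piece is not constant -/
def RR (ν : Measure ℝ) : Set ℝ := {x | cdf ν x ≠ 0 ∧ cdf ν x ≠ 1}

theorem measurableSet_RR (ν : Measure ℝ) : MeasurableSet (RR ν) := by
  have h := (monotone_cdf ν).measurable
  exact (h (measurableSet_singleton 0).compl).inter (h (measurableSet_singleton 1).compl)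

/-- the discrepancy with respect to a product measure in the uniform coordinates -/
theorem DP_eq_dd {d m : ℕ} (μ : Fin d → Measure ℝ) (hprob : ∀ i, IsProbabilityMeasure (μ i))
    (hμ : ∀ i, μ i (Icc (0 : ℝ) 1)ᶜ = 0) (ξ : Fin m → Fin d → ℝ)
    (hξ : ∀ j i, 0 < ξ j i ∧ ξ j i ≤ 1) (x : Fin d → ℝ) :
    DP (fun _ => 1) (fun j i => Q (μ i) (ξ j i)) m μ x = dd ξ (fun i => cdf (μ i) (x i)) := by
  classical
  unfold DP dd
  congr 1
  rw [Finset.card_filter]
  push_cast
  apply Finset.sum_congr rfl
  intro j _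
  have h1 : (∀ i, Q (μ i) (ξ j i) ≤ x i) ↔ ∀ i, ξ j i ≤ cdf (μ i) (x i) :=
    forall_congr' fun i => Q_le_iff (μ i) (hμ i) (hξ j i).1 (hξ j i).2
  simp only [h1]

theorem dd_zero {d m : ℕ} (ξ : Fin m → Fin d → ℝ) (hξ : ∀ j i, 0 < ξ j i ∧ ξ j i ≤ 1)
    (x : Fin d → ℝ) (i0 : Fin d) (h : x i0 = 0) : dd ξ x = 0 := by
  classical
  unfold dd
  rw [Finset.prod_eq_zero (Finset.mem_univ i0) h, mul_zero, sub_zero]
  have : Finset.univ.filter (fun μ => ∀ i, ξ μ i ≤ x i) = ∅ := by
    apply Finset.filter_eq_empty_iff.2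
    intro μ _ hcon
    have := hcon i0
    rw [h] at this
    exact absurd (hξ μ i0).1 (not_lt.2 this)
  rw [this, Finset.card_empty, Nat.cast_zero]

/-- one piece -/
theorem one_piece (d' : ℕ) (hd : 1 ≤ d') (i0 : Fin (d' + 1)) : ∃ C : ℝ, 0 < C ∧
    ∀ μ : Fin (d' + 1) → Measure ℝ, (∀ i, IsProbabilityMeasure (μ i)) →
    (∀ i, μ i (Icc (0 : ℝ) 1)ᶜ = 0) → ∀ ν : Measure ℝ, IsProbabilityMeasure ν →
    ν (Icc (0 : ℝ) 1)ᶜ = 0 → ∀ W : ℝ, 0 ≤ W → ∀ N : ℕ, 2 ≤ N → ∀ m : ℕ, m ≤ N →
    ∃ ξ : Fin m → Fin (d' + 1) → ℝ, (∀ j i, ξ j i ∈ Icc (0 : ℝ) 1) ∧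
      ∫⁻ x, ENNReal.ofReal (DP (fun _ => 1) ξ m (update μ i0 ν) x ^ 2 *
        ((RR ν).indicator (fun _ => 1) (x i0) + W * (RR ν)ᶜ.indicator (fun _ => 1) (x i0)))
        ∂(Measure.pi μ) ≤
      ENNReal.ofReal (C * (Real.log N) ^ d') * μ i0 (RR ν) +
        ENNReal.ofReal (W * (C * (Real.log N) ^ (d' - 1))) := by
  classical
  obtain ⟨C, hC, hfam⟩ := family d' hd i0
  refine ⟨C, hC, ?_⟩
  intro μ hprob hμ ν hν hνs W hW N hN m hm
  obtain ⟨S, hS1, hS2, ξ, hξ, hb⟩ := hfam N hN m hm
  set μ' := update μ i0 ν with hμ'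
  have hprob' : ∀ i, IsProbabilityMeasure (μ' i) := by
    intro i
    by_cases hi : i = i0
    · subst hi; rw [hμ', update_self]; exact hν
    · rw [hμ', update_of_ne hi]; exact hprob i
  have hμs' : ∀ i, μ' i (Icc (0 : ℝ) 1)ᶜ = 0 := by
    intro i
    by_cases hi : i = i0
    · subst hi; rw [hμ', update_self]; exact hνs
    · rw [hμ', update_of_ne hi]; exact hμ i
  have hlog0 : 0 ≤ Real.log N := Real.log_nonneg (by exact_mod_cast (by omega : 1 ≤ N))
  set wt : (Fin (d' + 1) → ℝ) → ℝ := fun x =>
    (RR ν).indicator (fun _ => 1) (x i0) + W * (RR ν)ᶜ.indicator (fun _ => 1) (x i0) with hwt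
  have hwt0 : ∀ x, 0 ≤ wt x := by
    intro x
    apply add_nonneg
    · exact indicator_nonneg (fun _ _ => zero_le_one) _
    · exact mul_nonneg hW (indicator_nonneg (fun _ _ => zero_le_one) _)
  have hwtm : Measurable wt := by
    apply Measurable.add
    · exact (measurable_const.indicator (measurableSet_RR ν)).comp (measurable_pi_apply i0)
    · exact ((measurable_const.indicator (measurableSet_RR ν).compl).comp
        (measurable_pi_apply i0)).const_mul W
  set η : S → Fin m → Fin (d' + 1) → ℝ := fun σ j i => Q (μ' i) (ξ σ j i) with hη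
  set B : ENNReal := ENNReal.ofReal (C * (Real.log N) ^ d') * μ i0 (RR ν) +
        ENNReal.ofReal (W * (C * (Real.log N) ^ (d' - 1))) with hB
  -- the pointwise bound
  have hpt : ∀ x : Fin (d' + 1) → ℝ,
      ∑ σ, DP (fun _ => 1) (η σ) m μ' x ^ 2 * wt x ≤ Fintype.card S *
        ((C * (Real.log N) ^ d') * (RR ν).indicator (fun _ => 1) (x i0) +
          W * (C * (Real.log N) ^ (d' - 1))) := by
    intro x
    have h1 : ∀ σ, DP (fun _ => 1) (η σ) m μ' x = dd (ξ σ) (fun i => cdf (μ' i) (x i)) := fun σ =>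
      DP_eq_dd μ' hprob' hμs' (ξ σ) (hξ σ) x
    simp only [h1]
    rw [← Finset.sum_mul]
    obtain ⟨hb1, hb2⟩ := hb (fun i => cdf (μ' i) (x i))
      (fun i => ⟨cdf_nonneg _ _, cdf_le_one _ _⟩)
    have hcard : (0 : ℝ) ≤ Fintype.card S := Nat.cast_nonneg _
    have hCl : 0 ≤ C * (Real.log N) ^ (d' - 1) := by positivity
    by_cases hx : x i0 ∈ RR ν
    · have h2 : wt x = 1 := by
        rw [hwt]
        simp only
        rw [indicator_of_mem hx, indicator_of_notMem (not_not.2 hx), mul_zero, add_zero]
      rw [h2, mul_one, indicator_of_mem hx]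
      nlinarith [mul_nonneg hcard (mul_nonneg hW hCl)]
    · have h2 : wt x = W := by
        rw [hwt]
        simp only
        rw [indicator_of_notMem hx, indicator_of_mem (mem_compl hx), mul_one, zero_add]
      rw [h2, indicator_of_notMem hx, mul_zero, zero_add]
      have h3 : cdf ν (x i0) = 0 ∨ cdf ν (x i0) = 1 := by
        by_contra hcon
        push Not at hcon
        exact hx hcon
      have h4 : ∑ σ, dd (ξ σ) (fun i => cdf (μ' i) (x i)) ^ 2 ≤
          C * (Real.log N) ^ (d' - 1) * Fintype.card S := by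
        rcases h3 with h3 | h3
        · have h5 : ∀ σ, dd (ξ σ) (fun i => cdf (μ' i) (x i)) = 0 := fun σ =>
            dd_zero (ξ σ) (hξ σ) _ i0 (by
              show cdf (μ' i0) (x i0) = 0
              rw [hμ', update_self]
              exact h3)
          simp only [h5]
          simp only [ne_eq, OfNat.ofNat_ne_zero, not_false_eq_true, zero_pow,
            Finset.sum_const_zero]
          positivity
        · apply hb2
          show cdf (μ' i0) (x i0) = 1
          rw [hμ', update_self]
          exact h3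
      calc (∑ σ, dd (ξ σ) (fun i => cdf (μ' i) (x i)) ^ 2) * W ≤
          (C * (Real.log N) ^ (d' - 1) * Fintype.card S) * W :=
            mul_le_mul_of_nonneg_right h4 hW
        _ = _ := by ring
  have hmeas : ∀ σ, Measurable (fun x : Fin (d' + 1) → ℝ =>
      ENNReal.ofReal (DP (fun _ => 1) (η σ) m μ' x ^ 2 * wt x)) := fun σ =>
    (((measurable_DP (fun _ => 1) (η σ) m μ').pow_const 2).mul hwtm).ennreal_ofReal
  obtain ⟨σ, hσ⟩ := exists_le_avg
    (fun σ => ∫⁻ x, ENNReal.ofReal (DP (fun _ => 1) (η σ) m μ' x ^ 2 * wt x) ∂(Measure.pi μ))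
    B (by
      rw [← lintegral_finsetSum _ (fun σ _ => hmeas σ)]
      calc ∫⁻ x, ∑ σ, ENNReal.ofReal (DP (fun _ => 1) (η σ) m μ' x ^ 2 * wt x) ∂(Measure.pi μ)
          ≤ ∫⁻ x, ENNReal.ofReal (Fintype.card S *
        ((C * (Real.log N) ^ d') * (RR ν).indicator (fun _ => 1) (x i0) +
          W * (C * (Real.log N) ^ (d' - 1)))) ∂(Measure.pi μ) := by
            apply lintegral_mono
            intro x
            show ∑ σ, ENNReal.ofReal (DP (fun _ => 1) (η σ) m μ' x ^ 2 * wt x) ≤ _
            rw [← ENNReal.ofReal_sum_of_nonneg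
              (fun σ _ => mul_nonneg (sq_nonneg _) (hwt0 x))]
            exact ENNReal.ofReal_le_ofReal (hpt x)
        _ = ∫⁻ x, (Fintype.card S : ENNReal) * (ENNReal.ofReal (C * (Real.log N) ^ d') *
              (RR ν).indicator (fun _ => 1) (x i0) +
              ENNReal.ofReal (W * (C * (Real.log N) ^ (d' - 1)))) ∂(Measure.pi μ) := by
            apply lintegral_congr
            intro x
            have h0 : 0 ≤ (RR ν).indicator (fun _ => (1 : ℝ)) (x i0) :=
              indicator_nonneg (fun _ _ => zero_le_one) _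
            rw [ENNReal.ofReal_mul (Nat.cast_nonneg _), ENNReal.ofReal_natCast,
              ENNReal.ofReal_add (by positivity) (by positivity),
              ENNReal.ofReal_mul (by positivity)]
            congr 3
            by_cases hx : x i0 ∈ RR ν
            · rw [indicator_of_mem hx, indicator_of_mem hx, ENNReal.ofReal_one]
            · rw [indicator_of_notMem hx, indicator_of_notMem hx, ENNReal.ofReal_zero]
        _ = Fintype.card S * B := by
            have hm0 : Measurable (fun x : Fin (d' + 1) → ℝ =>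
                (RR ν).indicator (fun _ => (1 : ENNReal)) (x i0)) :=
              (measurable_const.indicator (measurableSet_RR ν)).comp (measurable_pi_apply i0)
            have hm1 : Measurable (fun x : Fin (d' + 1) → ℝ =>
                ENNReal.ofReal (C * (Real.log N) ^ d') *
                (RR ν).indicator (fun _ => (1 : ENNReal)) (x i0) +
                ENNReal.ofReal (W * (C * (Real.log N) ^ (d' - 1)))) :=
              (hm0.const_mul _).add measurable_const
            rw [lintegral_const_mul _ hm1,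
              lintegral_add_right _ measurable_const, lintegral_const_mul _ hm0,
              lintegral_const, measure_univ, mul_one, hB]
            congr 3
            have h5 : ∫⁻ x, (RR ν).indicator (fun _ => (1 : ENNReal)) (x i0) ∂(Measure.pi μ) =
                ∫⁻ y, (RR ν).indicator (fun _ => (1 : ENNReal)) y ∂(μ i0) :=
              (measurePreserving_eval μ i0).lintegral_comp
                (measurable_const.indicator (measurableSet_RR ν))
            rw [h5, lintegral_indicator (measurableSet_RR ν), lintegral_const,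
              Measure.restrict_apply_univ, one_mul])
  exact ⟨η σ, fun j i => Q_mem (μ' i) (hμs' i) _, hσ⟩

end Pool.Agent.U902.PT
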