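import Pool.Agent.U902.PT.Up

set_option autoImplicit false

/-!
# Product target measures: the union of the point sets of the pieces
-/

namespace Pool.Agent.U902.PT

open MeasureTheory ProbabilityTheory Set Filter Topology Function

/-- the square of a sum in which at most one term is exceptional -/
theorem sq_sum_le {S : Type} [Fintype S] [DecidableEq S] (D : S → ℝ) (e : ℝ) (I : Finset S)
    (hI : I.card ≤ 1) (he : |e| ≤ 2 * Fintype.card S) :
    (∑ s, D s + e) ^ 2 ≤ 2 * (∑ s, D s ^ 2 * (if s ∈ I then 1 else (Fintype.card S : ℝ) + 1)) +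
      8 * ((Fintype.card S : ℝ) + 1) * (Fintype.card S : ℝ) ^ 2 := by
  set n : ℝ := (Fintype.card S : ℝ) with hn
  have hn0 : 0 ≤ n := Nat.cast_nonneg _
  set A : ℝ := ∑ s ∈ I, D s with hA
  set a : ℝ := ∑ s ∈ Iᶜ, D s with ha
  set σ : ℝ := ∑ s ∈ Iᶜ, D s ^ 2 with hσ
  have hsplit : ∑ s, D s = A + a := (Finset.sum_add_sum_compl I D).symm
  have hA2 : A ^ 2 ≤ ∑ s ∈ I, D s ^ 2 := by
    have h1 := sq_sum_le_card_mul_sum_sq (s := I) (f := D)
    have h2 : (I.card : ℝ) * ∑ s ∈ I, D s ^ 2 ≤ 1 * ∑ s ∈ I, D s ^ 2 := by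
      apply mul_le_mul_of_nonneg_right (by exact_mod_cast hI)
      exact Finset.sum_nonneg fun _ _ => sq_nonneg _
    linarith
  have ha2 : a ^ 2 ≤ n * σ := by
    have h1 := sq_sum_le_card_mul_sum_sq (s := Iᶜ) (f := D)
    refine h1.trans ?_
    apply mul_le_mul_of_nonneg_right
    · rw [hn]
      exact_mod_cast Finset.card_le_univ _
    · exact Finset.sum_nonneg fun _ _ => sq_nonneg _
  have hσ0 : 0 ≤ σ := Finset.sum_nonneg fun _ _ => sq_nonneg _
  have he2 : e ^ 2 ≤ 4 * n ^ 2 := by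
    rw [← sq_abs e]
    have := pow_le_pow_left₀ (abs_nonneg e) he 2
    nlinarith
  have hB : (a + e) ^ 2 ≤ (n + 1) * (σ + e ^ 2) := by
    rcases hn0.eq_or_lt with h0 | h0
    · have h3 : a = 0 := by
        have : a ^ 2 ≤ 0 := by rw [← h0] at ha2; simpa using ha2
        exact pow_eq_zero_iff (two_ne_zero) |>.1 (le_antisymm this (sq_nonneg a))
      rw [h3, ← h0]
      nlinarith
    · have h4 : n * (a + e) ^ 2 ≤ n * ((n + 1) * (σ + e ^ 2)) := by
        nlinarith [sq_nonneg (a - n * e)]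
      exact le_of_mul_le_mul_left h4 h0
  have hsum : ∑ s, D s ^ 2 * (if s ∈ I then 1 else n + 1) =
      ∑ s ∈ I, D s ^ 2 + (n + 1) * σ := by
    rw [← Finset.sum_add_sum_compl I]
    congr 1
    · apply Finset.sum_congr rfl
      intro s hs
      rw [if_pos hs, mul_one]
    · rw [hσ, Finset.mul_sum]
      apply Finset.sum_congr rfl
      intro s hs
      rw [if_neg (Finset.mem_compl.1 hs), mul_comm]
  rw [hsum, hsplit]
  have h5 : (A + a + e) ^ 2 ≤ 2 * A ^ 2 + 2 * (a + e) ^ 2 := by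
    nlinarith [sq_nonneg (A - (a + e))]
  nlinarith

/-- the discrepancy of a union of point sets -/
theorem DP_union {d N : ℕ} (μ : Fin d → Measure ℝ) (i0 : Fin d) {S : Type} [Fintype S]
    (ν : S → Measure ℝ) (m : S → ℝ) (hm0 : ∀ s, 0 ≤ m s) (hm1 : ∑ s, m s = 1)
    (hcdf : ∀ x, cdf (μ i0) x = ∑ s, m s * cdf (ν s) x) (n : S → ℕ)
    (hn : ∀ s, n s = ⌊(N : ℝ) * m s⌋₊) (ξ : (s : S) → Fin (n s) → Fin d → ℝ)
    (hξ : ∀ s j i, ξ s j i ∈ Icc (0 : ℝ) 1) :
    ∃ η : Fin N → Fin d → ℝ, (∀ j i, η j i ∈ Icc (0 : ℝ) 1) ∧ ∀ x : Fin d → ℝ,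
      |DP (fun _ => 1) η N μ x - ∑ s, DP (fun _ => 1) (ξ s) (n s) (update μ i0 (ν s)) x| ≤
        2 * Fintype.card S := by
  classical
  have hnle : ∀ s, (n s : ℝ) ≤ N * m s := fun s => by
    rw [hn s]
    exact Nat.floor_le (mul_nonneg (Nat.cast_nonneg _) (hm0 s))
  have hnlt : ∀ s, (N : ℝ) * m s ≤ n s + 1 := fun s => by
    rw [hn s]
    exact (Nat.lt_floor_add_one _).le
  have hsumle : (∑ s, n s : ℕ) ≤ N := by
    have h1 : ((∑ s, n s : ℕ) : ℝ) ≤ N := by
      push_cast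
      calc ∑ s, (n s : ℝ) ≤ ∑ s, (N : ℝ) * m s := Finset.sum_le_sum fun s _ => hnle s
        _ = N := by rw [← Finset.mul_sum, hm1, mul_one]
    exact_mod_cast h1
  set r : ℕ := N - ∑ s, n s with hr
  have hrle : (r : ℝ) ≤ Fintype.card S := by
    have h1 : (r : ℝ) = N - ∑ s, (n s : ℝ) := by
      rw [hr, Nat.cast_sub hsumle]
      push_cast
      rfl
    have h2 : (N : ℝ) ≤ ∑ s, ((n s : ℝ) + 1) := by
      calc (N : ℝ) = ∑ s, (N : ℝ) * m s := by rw [← Finset.mul_sum, hm1, mul_one]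
        _ ≤ _ := Finset.sum_le_sum fun s _ => hnlt s
    rw [Finset.sum_add_distrib] at h2
    simp only [Finset.sum_const, Finset.card_univ, nsmul_eq_mul, mul_one] at h2
    linarith
  have hcard : Fintype.card ((Σ s, Fin (n s)) ⊕ Fin r) = N := by
    simp only [Fintype.card_sum, Fintype.card_sigma, Fintype.card_fin]
    omega
  let e : Fin N ≃ (Σ s, Fin (n s)) ⊕ Fin r := (Fintype.equivFinOfCardEq hcard).symm
  let η' : (Σ s, Fin (n s)) ⊕ Fin r → Fin d → ℝ := Sum.elim (fun a => ξ a.1 a.2) (fun _ _ => 1)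
  refine ⟨fun j => η' (e j), ?_, ?_⟩
  · intro j i
    rcases h : e j with a | b
    · simp only [h]
      exact hξ a.1 a.2 i
    · simp only [h]
      exact ⟨zero_le_one, le_rfl⟩
  · intro x
    set P : ℝ := ∏ i ∈ Finset.univ.erase i0, cdf (μ i) (x i) with hP
    have hP0 : 0 ≤ P := Finset.prod_nonneg fun i _ => cdf_nonneg _ _
    have hP1 : P ≤ 1 := Finset.prod_le_one (fun i _ => cdf_nonneg _ _) (fun i _ => cdf_le_one _ _)
    have hprod : ∏ i, cdf (μ i) (x i) = cdf (μ i0) (x i0) * P :=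
      (Finset.mul_prod_erase Finset.univ (fun i => cdf (μ i) (x i)) (Finset.mem_univ i0)).symm
    have hprod' : ∀ s, ∏ i, cdf (update μ i0 (ν s) i) (x i) = cdf (ν s) (x i0) * P := by
      intro s
      rw [← Finset.mul_prod_erase Finset.univ (fun i => cdf (update μ i0 (ν s) i) (x i))
        (Finset.mem_univ i0), update_self]
      congr 1
      apply Finset.prod_congr rfl
      intro i hi
      rw [update_of_ne (Finset.ne_of_mem_erase hi)]
    have hsumη : ∑ j : Fin N, (if ∀ i, η' (e j) i ≤ x i then (1 : ℝ) else 0) =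
        ∑ s, ∑ k : Fin (n s), (if ∀ i, ξ s k i ≤ x i then (1 : ℝ) else 0) +
          r * (if ∀ i, 1 ≤ x i then (1 : ℝ) else 0) := by
      rw [Equiv.sum_comp e (fun t => if ∀ i, η' t i ≤ x i then (1 : ℝ) else 0),
        Fintype.sum_sum_type, Fintype.sum_sigma]
      congr 1
      have h7 : ∀ a : Fin r, (if ∀ i, η' (Sum.inr a) i ≤ x i then (1 : ℝ) else 0) =
          if ∀ i, 1 ≤ x i then (1 : ℝ) else 0 := by
        intro a
        have h8 : (∀ i, η' (Sum.inr a) i ≤ x i) ↔ ∀ i, 1 ≤ x i := Iff.rfl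
        simp only [h8]
      rw [Finset.sum_congr rfl (fun a _ => h7 a), Finset.sum_const, Finset.card_univ,
        Fintype.card_fin, nsmul_eq_mul]
    have hD : DP (fun _ => 1) (fun j => η' (e j)) N μ x -
        ∑ s, DP (fun _ => 1) (ξ s) (n s) (update μ i0 (ν s)) x =
        r * (if ∀ i, 1 ≤ x i then (1 : ℝ) else 0) -
          ∑ s, ((N : ℝ) * m s - n s) * (cdf (ν s) (x i0) * P) := by
      have e1 : DP (fun _ => 1) (fun j => η' (e j)) N μ x =
          (∑ s, ∑ k : Fin (n s), (if ∀ i, ξ s k i ≤ x i then (1 : ℝ) else 0) +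
          r * (if ∀ i, 1 ≤ x i then (1 : ℝ) else 0)) -
          ∑ s, (N : ℝ) * m s * (cdf (ν s) (x i0) * P) := by
        unfold DP
        rw [hprod, hcdf (x i0)]
        have e2 : (N : ℝ) * ((∑ s, m s * cdf (ν s) (x i0)) * P) =
            ∑ s, (N : ℝ) * m s * (cdf (ν s) (x i0) * P) := by
          rw [Finset.sum_mul, Finset.mul_sum]
          apply Finset.sum_congr rfl
          intro s _
          ring
        rw [e2, ← hsumη]
      have e3 : ∑ s, DP (fun _ => 1) (ξ s) (n s) (update μ i0 (ν s)) x =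
          ∑ s, ∑ k : Fin (n s), (if ∀ i, ξ s k i ≤ x i then (1 : ℝ) else 0) -
            ∑ s, (n s : ℝ) * (cdf (ν s) (x i0) * P) := by
        rw [← Finset.sum_sub_distrib]
        apply Finset.sum_congr rfl
        intro s _
        unfold DP
        rw [hprod' s]
      rw [e1, e3]
      simp only [sub_mul, Finset.sum_sub_distrib]
      ring
    rw [hD]
    have h1 : |(r : ℝ) * (if ∀ i, 1 ≤ x i then (1 : ℝ) else 0)| ≤ Fintype.card S := by
      split_ifs
      · rw [mul_one, abs_of_nonneg (Nat.cast_nonneg _)]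
        exact hrle
      · rw [mul_zero, abs_zero]
        exact Nat.cast_nonneg _
    have h2 : |∑ s, ((N : ℝ) * m s - n s) * (cdf (ν s) (x i0) * P)| ≤ Fintype.card S := by
      refine (Finset.abs_sum_le_sum_abs _ _).trans ?_
      calc ∑ s, |((N : ℝ) * m s - n s) * (cdf (ν s) (x i0) * P)| ≤ ∑ _s : S, (1 : ℝ) := by
            apply Finset.sum_le_sum
            intro s _
            rw [abs_mul]
            have h3 : |(N : ℝ) * m s - n s| ≤ 1 := by
              rw [abs_le]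
              constructor
              · linarith [hnle s]
              · linarith [hnlt s]
            have h4 : |cdf (ν s) (x i0) * P| ≤ 1 := by
              rw [abs_of_nonneg (mul_nonneg (cdf_nonneg _ _) hP0)]
              exact mul_le_one₀ (cdf_le_one _ _) hP0 hP1
            calc |(N : ℝ) * m s - n s| * |cdf (ν s) (x i0) * P| ≤ 1 * 1 :=
                  mul_le_mul h3 h4 (abs_nonneg _) zero_le_one
              _ = 1 := one_mul 1
        _ = Fintype.card S := by simp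
    calc |(r : ℝ) * (if ∀ i, 1 ≤ x i then (1 : ℝ) else 0) -
          ∑ s, ((N : ℝ) * m s - n s) * (cdf (ν s) (x i0) * P)| ≤ _ := abs_sub _ _
      _ ≤ 2 * Fintype.card S := by linarith

/-- **The union of the pieces.** -/
theorem pieces (d' : ℕ) (hd : 1 ≤ d') (i0 : Fin (d' + 1)) : ∃ C : ℝ, 0 < C ∧
    ∀ μ : Fin (d' + 1) → Measure ℝ, (∀ i, IsProbabilityMeasure (μ i)) →
    (∀ i, μ i (Icc (0 : ℝ) 1)ᶜ = 0) → ∀ (S : Type) [Fintype S] (ν : S → Measure ℝ),
    (∀ s, IsProbabilityMeasure (ν s)) → (∀ s, ν s (Icc (0 : ℝ) 1)ᶜ = 0) → ∀ m : S → ℝ,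
    (∀ s, 0 ≤ m s) → ∑ s, m s = 1 → (∀ x, cdf (μ i0) x = ∑ s, m s * cdf (ν s) x) →
    (∀ s t, s ≠ t → Disjoint (RR (ν s)) (RR (ν t))) → ∀ N : ℕ, 2 ≤ N →
    ∃ ξ : Fin N → Fin (d' + 1) → ℝ, (∀ j i, ξ j i ∈ Icc (0 : ℝ) 1) ∧
      ∫⁻ x, ENNReal.ofReal (DP (fun _ => 1) ξ N μ x ^ 2) ∂(Measure.pi μ) ≤
        2 * ∑ s, (ENNReal.ofReal (C * (Real.log N) ^ d') * μ i0 (RR (ν s)) +
          ENNReal.ofReal (((Fintype.card S : ℝ) + 1) * (C * (Real.log N) ^ (d' - 1)))) +
        ENNReal.ofReal (8 * ((Fintype.card S : ℝ) + 1) * (Fintype.card S : ℝ) ^ 2) := by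
  classical
  obtain ⟨C, hC, hone⟩ := one_piece d' hd i0
  refine ⟨C, hC, ?_⟩
  intro μ hprob hμ S _ ν hν hνs m hm0 hm1 hcdf hdisj N hN
  have hm_le : ∀ s, m s ≤ 1 := fun s => by
    rw [← hm1]
    exact Finset.single_le_sum (fun t _ => hm0 t) (Finset.mem_univ s)
  have hnN : ∀ s, ⌊(N : ℝ) * m s⌋₊ ≤ N := fun s =>
    Nat.floor_le_of_le (by nlinarith [hm_le s, (Nat.cast_nonneg N : (0 : ℝ) ≤ N)])
  set W : ℝ := (Fintype.card S : ℝ) + 1 with hW
  have hW0 : 0 ≤ W := by positivity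
  choose ξ hξ hξb using fun s => hone μ hprob hμ (ν s) (hν s) (hνs s) W hW0 N hN _ (hnN s)
  obtain ⟨η, hη, hηD⟩ := DP_union (N := N) μ i0 ν m hm0 hm1 hcdf (fun s => ⌊(N : ℝ) * m s⌋₊)
    (fun _ => rfl) ξ hξ
  refine ⟨η, hη, ?_⟩
  set wt : S → (Fin (d' + 1) → ℝ) → ℝ := fun s x =>
    (RR (ν s)).indicator (fun _ => 1) (x i0) + W * (RR (ν s))ᶜ.indicator (fun _ => 1) (x i0)
    with hwt
  set D : S → (Fin (d' + 1) → ℝ) → ℝ := fun s x =>
    DP (fun _ => 1) (ξ s) (⌊(N : ℝ) * m s⌋₊ : ℕ) (update μ i0 (ν s)) x with hD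
  have hwt0 : ∀ s x, 0 ≤ wt s x := by
    intro s x
    apply add_nonneg
    · exact indicator_nonneg (fun _ _ => zero_le_one) _
    · exact mul_nonneg hW0 (indicator_nonneg (fun _ _ => zero_le_one) _)
  have hwtm : ∀ s, Measurable (wt s) := by
    intro s
    apply Measurable.add
    · exact (measurable_const.indicator (measurableSet_RR (ν s))).comp (measurable_pi_apply i0)
    · exact ((measurable_const.indicator (measurableSet_RR (ν s)).compl).comp
        (measurable_pi_apply i0)).const_mul W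
  have hmeas : ∀ s, Measurable (fun x : Fin (d' + 1) → ℝ =>
      ENNReal.ofReal (D s x ^ 2 * wt s x)) := fun s =>
    (((measurable_DP (fun _ => 1) (ξ s) _ _).pow_const 2).mul (hwtm s)).ennreal_ofReal
  have hpt : ∀ x, DP (fun _ => 1) η N μ x ^ 2 ≤ 2 * (∑ s, D s x ^ 2 * wt s x) +
      8 * ((Fintype.card S : ℝ) + 1) * (Fintype.card S : ℝ) ^ 2 := by
    intro x
    have h1 := sq_sum_le (fun s => D s x)
      (DP (fun _ => 1) η N μ x - ∑ s, D s x) (Finset.univ.filter fun s => x i0 ∈ RR (ν s))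
      (by
        rw [Finset.card_le_one]
        intro s hs t ht
        by_contra hst
        rw [Finset.mem_filter] at hs ht
        exact (Set.disjoint_left.1 (hdisj s t hst)) hs.2 ht.2) (hηD x)
    have h2 : ∑ s, D s x + (DP (fun _ => 1) η N μ x - ∑ s, D s x) =
        DP (fun _ => 1) η N μ x := by ring
    rw [h2] at h1
    refine h1.trans (le_of_eq ?_)
    congr 2
    apply Finset.sum_congr rfl
    intro s _
    congr 1
    have h9 : s ∈ (Finset.univ.filter fun s => x i0 ∈ RR (ν s)) ↔ x i0 ∈ RR (ν s) := by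
      rw [Finset.mem_filter]
      exact ⟨fun h => h.2, fun h => ⟨Finset.mem_univ s, h⟩⟩
    by_cases hs : x i0 ∈ RR (ν s)
    · rw [if_pos (h9.2 hs), hwt]
      simp only
      rw [indicator_of_mem hs, indicator_of_notMem (not_not.2 hs), mul_zero, add_zero]
    · rw [if_neg (fun h => hs (h9.1 h)), hwt]
      simp only
      rw [indicator_of_notMem hs, indicator_of_mem (mem_compl hs), mul_one, zero_add]
  calc ∫⁻ x, ENNReal.ofReal (DP (fun _ => 1) η N μ x ^ 2) ∂(Measure.pi μ)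
      ≤ ∫⁻ x, (2 * ∑ s, ENNReal.ofReal (D s x ^ 2 * wt s x) +
          ENNReal.ofReal (8 * ((Fintype.card S : ℝ) + 1) * (Fintype.card S : ℝ) ^ 2))
          ∂(Measure.pi μ) := by
        apply lintegral_mono
        intro x
        show ENNReal.ofReal (DP (fun _ => 1) η N μ x ^ 2) ≤
          2 * ∑ s, ENNReal.ofReal (D s x ^ 2 * wt s x) +
          ENNReal.ofReal (8 * ((Fintype.card S : ℝ) + 1) * (Fintype.card S : ℝ) ^ 2)
        refine (ENNReal.ofReal_le_ofReal (hpt x)).trans ?_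
        have h0 : 0 ≤ ∑ s, D s x ^ 2 * wt s x :=
          Finset.sum_nonneg fun s _ => mul_nonneg (sq_nonneg _) (hwt0 s x)
        rw [ENNReal.ofReal_add (by positivity) (by positivity),
          ENNReal.ofReal_mul (by norm_num : (0 : ℝ) ≤ 2),
          ENNReal.ofReal_sum_of_nonneg (fun s _ => mul_nonneg (sq_nonneg _) (hwt0 s x))]
        simp
    _ = 2 * ∑ s, ∫⁻ x, ENNReal.ofReal (D s x ^ 2 * wt s x) ∂(Measure.pi μ) +
          ENNReal.ofReal (8 * ((Fintype.card S : ℝ) + 1) * (Fintype.card S : ℝ) ^ 2) := by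
        have hm2 : Measurable (fun x : Fin (d' + 1) → ℝ =>
            ∑ s, ENNReal.ofReal (D s x ^ 2 * wt s x)) :=
          Finset.measurable_fun_sum _ fun s _ => hmeas s
        rw [lintegral_add_right _ measurable_const, lintegral_const_mul _ hm2,
          lintegral_finsetSum _ (fun s _ => hmeas s), lintegral_const, measure_univ, mul_one]
    _ ≤ _ := by
        gcongr with s _
        exact hξb s

end Pool.Agent.U902.PT
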