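import Pool.Agent.U902.PT.Up2

set_option autoImplicit false

/-!
# Product target measures: the upper bounds
-/

namespace Pool.Agent.U902.PT

open MeasureTheory ProbabilityTheory Set Filter Topology Function

/-- the measure on a piece -/
noncomputable def pm (ν : Measure ℝ) (P : Set ℝ) : Measure ℝ := by
  classical
  exact if ν P = 0 then Measure.dirac 1 else cond ν P

theorem pm_prob (ν : Measure ℝ) [IsProbabilityMeasure ν] (P : Set ℝ) :
    IsProbabilityMeasure (pm ν P) := by
  unfold pm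
  split_ifs with h
  · infer_instance
  · exact cond_isProbabilityMeasure h

theorem pm_supp (ν : Measure ℝ) [IsProbabilityMeasure ν] (hν : ν (Icc (0 : ℝ) 1)ᶜ = 0)
    (P : Set ℝ) : pm ν P (Icc (0 : ℝ) 1)ᶜ = 0 := by
  unfold pm
  split_ifs with h
  · rw [Measure.dirac_apply' _ measurableSet_Icc.compl]
    simp
  · exact cond_absolutelyContinuous hν

theorem pm_cdf (ν : Measure ℝ) [IsProbabilityMeasure ν] (P : Set ℝ) (hP : MeasurableSet P)
    (h : ν P ≠ 0) (x : ℝ) : cdf (pm ν P) x = (ν P).toReal⁻¹ * (ν (P ∩ Iic x)).toReal := by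
  have := pm_prob ν P
  rw [cdf_eq_real, measureReal_def]
  unfold pm
  rw [if_neg h, cond_apply hP, ENNReal.toReal_mul, ENNReal.toReal_inv]

theorem cdf_sum (ν : Measure ℝ) [IsProbabilityMeasure ν] {S : Type} [Fintype S] (P : S → Set ℝ)
    (hP : ∀ s, MeasurableSet (P s)) (hd : ∀ s t, s ≠ t → Disjoint (P s) (P t))
    (hU : ∀ x, ∃ s, x ∈ P s) (x : ℝ) :
    cdf ν x = ∑ s, (ν (P s)).toReal * cdf (pm ν (P s)) x := by
  have h1 : ν (Iic x) = ∑ s, ν (P s ∩ Iic x) := by
    have h2 : Iic x = ⋃ s, (P s ∩ Iic x) := by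
      ext y
      rw [mem_iUnion]
      constructor
      · intro hy
        obtain ⟨s, hs⟩ := hU y
        exact ⟨s, hs, hy⟩
      · rintro ⟨s, _, hy⟩
        exact hy
    conv_lhs => rw [h2]
    rw [measure_iUnion (fun s t hst => (hd s t hst).mono inter_subset_left inter_subset_left)
      (fun s => (hP s).inter measurableSet_Iic), tsum_fintype]
  rw [cdf_eq_real, measureReal_def, h1, ENNReal.toReal_sum (fun s _ => measure_ne_top _ _)]
  apply Finset.sum_congr rfl
  intro s _
  by_cases h : ν (P s) = 0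
  · rw [h, ENNReal.toReal_zero, zero_mul, measure_mono_null inter_subset_left h,
      ENNReal.toReal_zero]
  · rw [pm_cdf ν (P s) (hP s) h, ← mul_assoc, mul_inv_cancel₀, one_mul]
    exact (ENNReal.toReal_pos h (measure_ne_top _ _)).ne'

theorem mass_sum (ν : Measure ℝ) [IsProbabilityMeasure ν] {S : Type} [Fintype S] (P : S → Set ℝ)
    (hP : ∀ s, MeasurableSet (P s)) (hd : ∀ s t, s ≠ t → Disjoint (P s) (P t))
    (hU : ∀ x, ∃ s, x ∈ P s) : ∑ s, (ν (P s)).toReal = 1 := by
  rw [← ENNReal.toReal_sum (fun s _ => measure_ne_top _ _)]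
  have h2 : (univ : Set ℝ) = ⋃ s, P s := by
    ext y
    rw [mem_iUnion]
    exact ⟨fun _ => hU y, fun _ => mem_univ y⟩
  have h3 : ν univ = ∑ s, ν (P s) := by
    rw [h2, measure_iUnion (fun s t hst => hd s t hst) hP, tsum_fintype]
  rw [← h3, measure_univ, ENNReal.toReal_one]

/-- a measure without continuous part is cut into pieces with a small rest -/
theorem cut (ν : Measure ℝ) [IsProbabilityMeasure ν] (hna : ν (NA ν) = 0) (ε : ENNReal)
    (hε : 0 < ε) : ∃ (S : Type) (_ : Fintype S) (P : S → Set ℝ),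
      (∀ s, MeasurableSet (P s)) ∧ (∀ s t, s ≠ t → Disjoint (P s) (P t)) ∧
      (∀ x, ∃ s, x ∈ P s) ∧ (∀ s t, s ≠ t → Disjoint (RR (pm ν (P s))) (RR (pm ν (P t)))) ∧
      ∑ s, ν (RR (pm ν (P s))) ≤ ε := by
  classical
  -- a finite set of atoms with large measure
  obtain ⟨F, hF⟩ : ∃ F : Finset ℝ, ν (F : Set ℝ)ᶜ ≤ ε := by
    have hA : (NA ν)ᶜ.Countable := by
      have h : Set.Countable {x : ℝ | 0 < ν {x}} :=
        Measure.countable_meas_pos_of_disjoint_iUnion (fun x => measurableSet_singleton x)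
          (fun x y hxy => Set.disjoint_singleton.2 hxy)
      refine h.mono ?_
      intro x hx
      exact pos_iff_ne_zero.2 hx
    have h1 : ν (NA ν)ᶜ = 1 := by
      rw [prob_compl_eq_one_iff (measurableSet_NA ν)]
      exact hna
    have h2 : ∑' a : ↥((NA ν)ᶜ), ν {(a : ℝ)} = 1 := by
      rw [← h1]
      have := (measure_biUnion hA (f := fun x : ℝ => ({x} : Set ℝ))
        (fun x _ y _ hxy => Set.disjoint_singleton.2 hxy) (fun x _ => measurableSet_singleton x)
        (μ := ν)).symm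
      rw [biUnion_of_singleton] at this
      exact this
    by_cases hε1 : 1 ≤ ε
    · exact ⟨∅, prob_le_one.trans hε1⟩
    rw [not_le] at hε1
    rw [ENNReal.tsum_eq_iSup_sum] at h2
    have h3 : 1 - ε < ⨆ s : Finset ↥((NA ν)ᶜ), ∑ a ∈ s, ν {(a : ℝ)} := by
      rw [h2]
      exact ENNReal.sub_lt_self ENNReal.one_ne_top one_ne_zero hε.ne'
    obtain ⟨s, hs⟩ := lt_iSup_iff.1 h3
    refine ⟨s.map ⟨Subtype.val, Subtype.val_injective⟩, ?_⟩
    have h4 : ν ((s.map ⟨Subtype.val, Subtype.val_injective⟩ : Finset ℝ) : Set ℝ) =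
        ∑ a ∈ s, ν {(a : ℝ)} := by
      rw [← sum_measure_singleton, Finset.sum_map]
      rfl
    rw [prob_compl_eq_one_sub (Finset.measurableSet _), h4]
    rw [tsub_le_iff_right]
    have h5 := hs.le
    rw [tsub_le_iff_right] at h5
    rw [add_comm]
    exact h5
  -- the pieces
  set cnt : ℝ → ℕ := fun x => (F.filter (· < x)).card with hcnt
  have hcntm : Measurable cnt := by
    have : cnt = fun x => ∑ b ∈ F, if b < x then 1 else 0 := by
      funext x
      rw [hcnt]
      simp only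
      rw [Finset.card_filter]
    rw [this]
    apply Finset.measurable_fun_sum
    intro b _
    exact Measurable.ite measurableSet_Ioi measurable_const measurable_const
  set P : ↥F ⊕ Fin (F.card + 1) → Set ℝ :=
    Sum.elim (fun b => {(b : ℝ)}) (fun k => {x | x ∉ F ∧ cnt x = k}) with hP
  have hFm : MeasurableSet {x : ℝ | x ∉ F} := F.measurableSet.compl
  have hPm : ∀ s, MeasurableSet (P s) := by
    rintro (b | k)
    · exact measurableSet_singleton _
    · exact hFm.inter (hcntm (measurableSet_singleton (k : ℕ)))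
  have hPd : ∀ s t, s ≠ t → Disjoint (P s) (P t) := by
    rintro (b | k) (c | l) hst
    · apply Set.disjoint_singleton.2
      intro h
      apply hst
      rw [Subtype.ext h]
    · apply Set.disjoint_left.2
      intro x hx hx2
      rw [show x = b from hx] at hx2
      exact hx2.1 b.2
    · apply Set.disjoint_left.2
      intro x hx2 hx
      rw [show x = c from hx] at hx2
      exact hx2.1 c.2
    · apply Set.disjoint_left.2
      intro x hx hx2
      apply hst
      have : (k : ℕ) = l := hx.2.symm.trans hx2.2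
      rw [Fin.ext this]
  have hPU : ∀ x, ∃ s, x ∈ P s := by
    intro x
    by_cases hx : x ∈ F
    · exact ⟨Sum.inl ⟨x, hx⟩, rfl⟩
    · exact ⟨Sum.inr ⟨cnt x, Nat.lt_succ_of_le (Finset.card_filter_le _ _)⟩, hx, rfl⟩
  have hRinl : ∀ b, RR (pm ν (P (Sum.inl b))) = ∅ := by
    intro b
    rw [eq_empty_iff_forall_notMem]
    rintro x ⟨h0, h1⟩
    by_cases h : ν (P (Sum.inl b)) = 0
    · have e1 : pm ν (P (Sum.inl b)) = Measure.dirac 1 := by
        unfold pm
        rw [if_pos h]
      rw [e1, cdf_eq_real, measureReal_def, Measure.dirac_apply' _ measurableSet_Iic] at h0 h1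
      by_cases hx : (1 : ℝ) ∈ Iic x
      · rw [indicator_of_mem hx] at h1
        exact h1 rfl
      · rw [indicator_of_notMem hx] at h0
        exact h0 rfl
    · rw [pm_cdf ν _ (hPm _) h] at h0 h1
      have e2 : P (Sum.inl b) = {(b : ℝ)} := rfl
      by_cases hx : (b : ℝ) ∈ Iic x
      · apply h1
        have e3 : P (Sum.inl b) ∩ Iic x = P (Sum.inl b) := by
          rw [inter_eq_left, e2, singleton_subset_iff]
          exact hx
        rw [e3, inv_mul_cancel₀]
        exact (ENNReal.toReal_pos h (measure_ne_top _ _)).ne'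
      · apply h0
        have e3 : P (Sum.inl b) ∩ Iic x = ∅ := by
          rw [e2, singleton_inter_eq_empty]
          exact hx
        rw [e3, measure_empty, ENNReal.toReal_zero, mul_zero]
  have hRinr : ∀ k, RR (pm ν (P (Sum.inr k))) ⊆ P (Sum.inr k) := by
    rintro k x ⟨h0, h1⟩
    by_contra hx
    by_cases h : ν (P (Sum.inr k)) = 0
    · have e1 : pm ν (P (Sum.inr k)) = Measure.dirac 1 := by
        unfold pm
        rw [if_pos h]
      rw [e1, cdf_eq_real, measureReal_def, Measure.dirac_apply' _ measurableSet_Iic] at h0 h1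
      by_cases hx : (1 : ℝ) ∈ Iic x
      · rw [indicator_of_mem hx] at h1
        exact h1 rfl
      · rw [indicator_of_notMem hx] at h0
        exact h0 rfl
    · rw [pm_cdf ν _ (hPm _) h] at h0 h1
      by_cases hall : P (Sum.inr k) ⊆ Iic x
      · apply h1
        rw [inter_eq_left.2 hall, inv_mul_cancel₀]
        exact (ENNReal.toReal_pos h (measure_ne_top _ _)).ne'
      · by_cases hnone : P (Sum.inr k) ∩ Iic x = ∅
        · apply h0
          rw [hnone, measure_empty, ENNReal.toReal_zero, mul_zero]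
        · exfalso
          obtain ⟨z, hz, hzx⟩ := not_subset.1 hall
          obtain ⟨y, hy, hyx⟩ := nonempty_iff_ne_empty.2 hnone
          rw [mem_Iic, not_le] at hzx
          have hsub1 : F.filter (· < y) ⊆ F.filter (· < x) := by
            intro b hb
            rw [Finset.mem_filter] at hb ⊢
            exact ⟨hb.1, lt_of_lt_of_le hb.2 hyx⟩
          have hsub2 : F.filter (· < x) ⊆ F.filter (· < z) := by
            intro b hb
            rw [Finset.mem_filter] at hb ⊢
            exact ⟨hb.1, hb.2.trans hzx⟩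
          have hcy : (F.filter (· < y)).card = k := hy.2
          have hcz : (F.filter (· < z)).card = k := hz.2
          have e4 := Finset.card_le_card hsub1
          have e5 := Finset.card_le_card hsub2
          have e6 : (F.filter (· < x)).card = k := by omega
          have e7 : F.filter (· < x) = F.filter (· < z) :=
            Finset.eq_of_subset_of_card_le hsub2 (by omega)
          apply hx
          refine ⟨fun hxF => ?_, e6⟩
          have h8 : x ∈ F.filter (· < z) := Finset.mem_filter.2 ⟨hxF, hzx⟩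
          rw [← e7, Finset.mem_filter] at h8
          exact lt_irrefl _ h8.2
  refine ⟨↥F ⊕ Fin (F.card + 1), inferInstance, P, hPm, hPd, hPU, ?_, ?_⟩
  · rintro (b | k) (c | l) hst
    · rw [hRinl]
      exact disjoint_bot_left
    · rw [hRinl]
      exact disjoint_bot_left
    · rw [hRinl]
      exact disjoint_bot_right
    · exact (hPd _ _ hst).mono (hRinr k) (hRinr l)
  · rw [Fintype.sum_sum_type]
    simp only [hRinl, measure_empty, Finset.sum_const_zero, zero_add]
    calc ∑ k : Fin (F.card + 1), ν (RR (pm ν (P (Sum.inr k))))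
        ≤ ∑ k : Fin (F.card + 1), ν (P (Sum.inr k)) :=
          Finset.sum_le_sum fun k _ => measure_mono (hRinr k)
      _ = ν (⋃ k : Fin (F.card + 1), P (Sum.inr k)) := by
          rw [measure_iUnion (fun k l hkl => hPd _ _ (fun h => hkl (Sum.inr_injective h)))
            (fun k => hPm _), tsum_fintype]
      _ ≤ ν (F : Set ℝ)ᶜ := by
          apply measure_mono
          intro x hx
          obtain ⟨k, hk⟩ := mem_iUnion.1 hx
          exact hk.1
      _ ≤ ε := hF

/-- **The upper bound for all products.** -/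
theorem upper (d' : ℕ) (hd : 1 ≤ d') : ∃ C : ℝ, 0 < C ∧
    ∀ μ : Fin (d' + 1) → Measure ℝ, (∀ i, IsProbabilityMeasure (μ i)) →
    (∀ i, μ i (Icc (0 : ℝ) 1)ᶜ = 0) → ∀ N : ℕ, 2 ≤ N →
    ∃ ξ : Fin N → Fin (d' + 1) → ℝ, (∀ j i, ξ j i ∈ Icc (0 : ℝ) 1) ∧
      ∫⁻ x, ENNReal.ofReal (DP (fun _ => 1) ξ N μ x ^ 2) ∂(Measure.pi μ) ≤
        ENNReal.ofReal (C * (Real.log N) ^ d') := by
  obtain ⟨C, hC, H⟩ := pieces d' hd 0
  have hl2 : 0 < Real.log 2 := Real.log_pos (by norm_num)
  refine ⟨2 * (C + 2 * (C / Real.log 2)) + 16 / (Real.log 2) ^ d', by positivity, ?_⟩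
  intro μ hprob hμ N hN
  obtain ⟨ξ, hξ, hb⟩ := H μ hprob hμ Unit (fun _ => μ 0) (fun _ => hprob 0) (fun _ => hμ 0)
    (fun _ => 1) (fun _ => zero_le_one) (by simp) (fun x => by simp)
    (fun s t hst => absurd (Subsingleton.elim s t) hst) N hN
  refine ⟨ξ, hξ, hb.trans ?_⟩
  have hL : Real.log 2 ≤ Real.log N := Real.log_le_log (by norm_num) (by exact_mod_cast hN)
  have hL0 : 0 < Real.log N := lt_of_lt_of_le hl2 hL
  set L := Real.log (N : ℝ) with hLdef
  have h1 : L ^ (d' - 1) ≤ L ^ d' / Real.log 2 := by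
    rw [le_div_iff₀ hl2]
    calc L ^ (d' - 1) * Real.log 2 ≤ L ^ (d' - 1) * L :=
          mul_le_mul_of_nonneg_left hL (by positivity)
      _ = L ^ d' := by rw [← pow_succ, Nat.sub_add_cancel hd]
  have h2 : (1 : ℝ) ≤ L ^ d' / (Real.log 2) ^ d' := by
    rw [le_div_iff₀ (by positivity), one_mul]
    exact pow_le_pow_left₀ hl2.le hL d'
  have h3 : μ 0 (RR (μ 0)) ≤ 1 := by
    have := hprob 0
    exact prob_le_one
  simp only [Finset.univ_unique, Finset.sum_singleton, Fintype.card_unique, Nat.cast_one]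
  calc 2 * (ENNReal.ofReal (C * L ^ d') * μ 0 (RR (μ 0)) +
        ENNReal.ofReal ((1 + 1) * (C * L ^ (d' - 1)))) + ENNReal.ofReal (8 * (1 + 1) * 1 ^ 2)
      ≤ 2 * (ENNReal.ofReal (C * L ^ d') * 1 +
        ENNReal.ofReal ((1 + 1) * (C * L ^ (d' - 1)))) + ENNReal.ofReal (8 * (1 + 1) * 1 ^ 2) := by
        gcongr
    _ = ENNReal.ofReal (2 * (C * L ^ d' + (1 + 1) * (C * L ^ (d' - 1))) +
          8 * (1 + 1) * 1 ^ 2) := by
        rw [ENNReal.ofReal_add (by positivity) (by positivity),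
          ENNReal.ofReal_mul (by norm_num : (0 : ℝ) ≤ 2),
          ENNReal.ofReal_add (by positivity) (by positivity), mul_one]
        congr 2
        simp
    _ ≤ _ := by
        apply ENNReal.ofReal_le_ofReal
        have h4 : C * L ^ (d' - 1) ≤ C * (L ^ d' / Real.log 2) := by gcongr
        have e1 : C * (L ^ d' / Real.log 2) = C / Real.log 2 * L ^ d' := by ring
        have e2 : 16 * (L ^ d' / (Real.log 2) ^ d') = 16 / (Real.log 2) ^ d' * L ^ d' := by ring
        nlinarith

/-- **A purely atomic marginal.** -/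
theorem small (d' : ℕ) (hd : 1 ≤ d') (μ : Fin (d' + 1) → Measure ℝ)
    (hprob : ∀ i, IsProbabilityMeasure (μ i)) (hμ : ∀ i, μ i (Icc (0 : ℝ) 1)ᶜ = 0)
    (i0 : Fin (d' + 1)) (hna : μ i0 (NA (μ i0)) = 0) (ε : ℝ) (hε : 0 < ε) :
    ∃ N₀ : ℕ, 2 ≤ N₀ ∧ ∀ N : ℕ, N₀ ≤ N →
    ∃ ξ : Fin N → Fin (d' + 1) → ℝ, (∀ j i, ξ j i ∈ Icc (0 : ℝ) 1) ∧
      ∫⁻ x, ENNReal.ofReal (DP (fun _ => 1) ξ N μ x ^ 2) ∂(Measure.pi μ) ≤
        ENNReal.ofReal (ε * (Real.log N) ^ d') := by
  obtain ⟨C, hC, H⟩ := pieces d' hd i0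
  have := hprob i0
  obtain ⟨S, hS, P, hPm, hPd, hPU, hRd, hsum⟩ := cut (μ i0) hna (ENNReal.ofReal (ε / (4 * C)))
    (ENNReal.ofReal_pos.2 (by positivity))
  have H1 := H μ hprob hμ S (fun s => pm (μ i0) (P s)) (fun s => pm_prob _ _)
    (fun s => pm_supp _ (hμ i0) _) (fun s => (μ i0 (P s)).toReal) (fun s => ENNReal.toReal_nonneg)
    (mass_sum _ P hPm hPd hPU) (cdf_sum _ P hPm hPd hPU) hRd
  set n : ℝ := (Fintype.card S : ℝ) with hn
  have hn0 : 0 ≤ n := Nat.cast_nonneg _
  have hlim : Tendsto (fun N : ℕ => Real.log (N : ℝ)) atTop atTop :=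
    Real.tendsto_log_atTop.comp tendsto_natCast_atTop_atTop
  have e1 : ∀ᶠ N : ℕ in atTop, 1 + (2 * n * (n + 1) * C + 8 * (n + 1) * n ^ 2) * (2 / ε) ≤
      Real.log (N : ℝ) := hlim.eventually_ge_atTop _
  obtain ⟨N₁, hN₁⟩ := eventually_atTop.1 e1
  refine ⟨max 2 N₁, le_max_left _ _, fun N hN => ?_⟩
  have hN2 : 2 ≤ N := (le_max_left _ _).trans hN
  obtain ⟨ξ, hξ, hb⟩ := H1 N hN2
  refine ⟨ξ, hξ, hb.trans ?_⟩
  have hL := hN₁ N ((le_max_right _ _).trans hN)
  set L := Real.log (N : ℝ) with hLdef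
  set A : ℝ := 2 * n * (n + 1) * C + 8 * (n + 1) * n ^ 2 with hA
  have hA0 : 0 ≤ A := by positivity
  have hL1 : 1 ≤ L := by
    have : 0 ≤ A * (2 / ε) := by positivity
    linarith
  have hAL : A ≤ ε / 2 * L := by
    have h1 : A * (2 / ε) ≤ L := by linarith
    have h2 : A = ε / 2 * (A * (2 / ε)) := by field_simp
    rw [h2]
    exact mul_le_mul_of_nonneg_left h1 (by positivity)
  calc 2 * ∑ s, (ENNReal.ofReal (C * L ^ d') * μ i0 (RR (pm (μ i0) (P s))) +
          ENNReal.ofReal ((n + 1) * (C * L ^ (d' - 1)))) +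
        ENNReal.ofReal (8 * (n + 1) * n ^ 2)
      = 2 * (ENNReal.ofReal (C * L ^ d') * ∑ s, μ i0 (RR (pm (μ i0) (P s))) +
          ENNReal.ofReal (n * ((n + 1) * (C * L ^ (d' - 1))))) +
        ENNReal.ofReal (8 * (n + 1) * n ^ 2) := by
        rw [Finset.sum_add_distrib, Finset.mul_sum, Finset.sum_const, Finset.card_univ,
          nsmul_eq_mul, ENNReal.ofReal_mul hn0, hn, ENNReal.ofReal_natCast]
    _ ≤ 2 * (ENNReal.ofReal (C * L ^ d') * ENNReal.ofReal (ε / (4 * C)) +
          ENNReal.ofReal (n * ((n + 1) * (C * L ^ (d' - 1))))) +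
        ENNReal.ofReal (8 * (n + 1) * n ^ 2) := by
        gcongr
    _ = ENNReal.ofReal (2 * (C * L ^ d' * (ε / (4 * C)) + n * ((n + 1) * (C * L ^ (d' - 1)))) +
          8 * (n + 1) * n ^ 2) := by
        rw [ENNReal.ofReal_add (by positivity) (by positivity),
          ENNReal.ofReal_mul (by norm_num : (0 : ℝ) ≤ 2),
          ENNReal.ofReal_add (by positivity) (by positivity),
          ENNReal.ofReal_mul (by positivity : 0 ≤ C * L ^ d')]
        simp
    _ ≤ ENNReal.ofReal (ε * L ^ d') := by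
        apply ENNReal.ofReal_le_ofReal
        have h3 : (1 : ℝ) ≤ L ^ (d' - 1) := one_le_pow₀ hL1
        have h4 : L ^ d' = L ^ (d' - 1) * L := by rw [← pow_succ, Nat.sub_add_cancel hd]
        have h5 : C * L ^ d' * (ε / (4 * C)) = ε / 4 * L ^ d' := by field_simp
        rw [h5]
        have h6 : 8 * (n + 1) * n ^ 2 ≤ 8 * (n + 1) * n ^ 2 * L ^ (d' - 1) :=
          le_mul_of_one_le_right (by positivity) h3
        have h7 : A * L ^ (d' - 1) ≤ ε / 2 * L * L ^ (d' - 1) :=
          mul_le_mul_of_nonneg_right hAL (by positivity)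
        have h8 : ε / 2 * L * L ^ (d' - 1) = ε / 2 * L ^ d' := by rw [h4]; ring
        rw [h8] at h7
        have h9 : A * L ^ (d' - 1) = 2 * (n * ((n + 1) * (C * L ^ (d' - 1)))) +
            8 * (n + 1) * n ^ 2 * L ^ (d' - 1) := by rw [hA]; ring
        nlinarith

end Pool.Agent.U902.PT
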